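import Pool.Agent.X169.NM.Glob
import Mathlib.Geometry.Manifold.WhitneyEmbedding

/-! From charts of the target to an embedding of the target. -/

set_option autoImplicit false

open Set Filter Topology Metric Function
open scoped Manifold ContDiff

noncomputable section

namespace Pool.Agent.X169.NM

open Pool.Agent.Y522
open Pool.Agent.X169.NL (small_ball)

theorem conv {n m : ℕ} {X N : Type} [TopologicalSpace X] [ChartedSpace (E n) X]
    [TopologicalSpace N] [ChartedSpace (E n) N] [IsManifold (𝓡 n) ∞ N] (e : N → E m)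
    (he : ContMDiff (𝓡 n) (𝓡 m) ∞ e) (hei : ∀ y, Injective (mfderiv (𝓡 n) (𝓡 m) e y))
    (g : X → N) (hg : Continuous g) (A : E n → X) (hA : LD n A 0) (ψ : N → E n)
    (hψ : LD n ψ (g (A 0))) (K r : ℝ) (hr : 0 < r)
    (h : ∀ ε : ℝ, 0 < ε → ∃ r₀ : ℝ, 0 < r₀ ∧ NLin (fun x => ψ (g x)) A ε K r r₀) :
    ∃ K' r' : ℝ, 0 < r' ∧
      ∀ ε : ℝ, 0 < ε → ∃ r₀ : ℝ, 0 < r₀ ∧ NLin (fun x => e (g x)) A ε K' r' r₀ := by
  obtain ⟨k, hk, hk0, hkl, -⟩ := hψ.exists_inverse
  set u₀ := ψ (g (A 0)) with hu₀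
  set κ : E n → E m := fun w => e (k w) with hκ
  obtain ⟨R, hR, hRk⟩ : ∃ R > 0, ∀ u ∈ closedBall u₀ R, LD n k u :=
    Metric.nhds_basis_closedBall.eventually_iff.1 hk.eventually
  have hκs : ∀ u ∈ closedBall u₀ R, ContDiffAt ℝ ∞ κ u := fun u hu => contDiffAt_comp he (hRk u hu)
  have hκi : ∀ u ∈ closedBall u₀ R, Injective (fderiv ℝ κ u) := fun u hu =>
    fderiv_inj he (hRk u hu) (hei _)
  have hκc : ContinuousOn (fderiv ℝ κ) (closedBall u₀ R) := by
    intro u hu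
    have h2 : ContDiffAt ℝ 1 κ u := (hκs u hu).of_le (by simp)
    exact ((h2.fderiv_right (m := 0) (by simp)).continuousAt).continuousWithinAt
  obtain ⟨c₁, hc₁, hc₁'⟩ : ∃ c : ℝ, 0 < c ∧ ∀ u ∈ closedBall u₀ R, ∀ v : E n,
      c * ‖v‖ ≤ ‖fderiv ℝ κ u v‖ := by
    have h1 : ContinuousOn (fun p : E n × E n => ‖fderiv ℝ κ p.1 p.2‖)
        (closedBall u₀ R ×ˢ sphere 0 1) := by
      have h2 : ContinuousOn (fun p : E n × E n => fderiv ℝ κ p.1)
          (closedBall u₀ R ×ˢ sphere 0 1) :=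
        hκc.comp continuousOn_fst fun p hp => hp.1
      exact (h2.clm_apply continuousOn_snd).norm
    obtain ⟨σ, hσ, hσ'⟩ := ((isCompact_closedBall u₀ R).prod
      (isCompact_sphere (0 : E n) 1)).exists_forall_le' h1 (a := 0) (by
      rintro ⟨z, v⟩ ⟨hz, hv⟩
      have hv' : v ≠ 0 := by
        rintro rfl
        simp at hv
      exact norm_pos_iff.2 fun h3 => hv' (hκi z hz (by rw [h3, map_zero])))
    refine ⟨σ, hσ, fun u hu => low_of_small _ 1 _ one_pos fun v hv => ?_⟩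
    rw [hv, mul_one]
    exact hσ' (u, v) ⟨hu, by simpa using hv⟩
  obtain ⟨c₂, hc₂⟩ := (isCompact_closedBall u₀ R).exists_bound_of_continuousOn hκc
  have hc₂0 : 0 ≤ c₂ := (norm_nonneg _).trans (hc₂ u₀ (mem_closedBall_self hR.le))
  -- the size of the domain
  obtain ⟨r₂, hr₂, hr₂c, hr₂R, hr₂k⟩ : ∃ r₂ : ℝ, 0 < r₂ ∧
      ContinuousOn (fun z => ψ (g (A z))) (closedBall (0 : E n) r₂) ∧
      (∀ z ∈ closedBall (0 : E n) r₂, ψ (g (A z)) ∈ closedBall u₀ R) ∧
      ∀ z ∈ closedBall (0 : E n) r₂, k (ψ (g (A z))) = g (A z) := by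
    have hgA : ContinuousAt (fun z => g (A z)) 0 := hg.continuousAt.comp hA.continuousAt
    have e1 : ∀ᶠ z in 𝓝 (0 : E n), LD n A z := hA.eventually
    have e2 : ∀ᶠ z in 𝓝 (0 : E n), LD n ψ (g (A z)) := hgA.eventually hψ.eventually
    have e3 : ∀ᶠ z in 𝓝 (0 : E n), k (ψ (g (A z))) = g (A z) := hgA.eventually hkl
    have e4 : ContinuousAt (fun z => ψ (g (A z))) 0 :=
      ContinuousAt.comp (f := fun z => g (A z)) hψ.continuousAt hgA
    have e5 : ∀ᶠ z in 𝓝 (0 : E n), ψ (g (A z)) ∈ closedBall u₀ R :=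
      e4 (closedBall_mem_nhds _ hR)
    obtain ⟨r₂, hr₂, hh⟩ := Metric.nhds_basis_closedBall.eventually_iff.1
      (e1.and (e2.and (e3.and e5)))
    refine ⟨r₂, hr₂, ?_, fun z hz => (hh hz).2.2.2, fun z hz => (hh hz).2.2.1⟩
    intro z hz
    have f1 : ContinuousAt (fun z => g (A z)) z := hg.continuousAt.comp (hh hz).1.continuousAt
    exact (ContinuousAt.comp (f := fun z => g (A z)) (hh hz).2.1.continuousAt
      f1).continuousWithinAt
  set K₁ := max K 1 with hK₁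
  have hK₁1 : 1 ≤ K₁ := le_max_right _ _
  have hKK : K ≤ K₁ := le_max_left _ _
  refine ⟨c₂ * K₁ / c₁, min r (r₂ / 2), by positivity, ?_⟩
  intro ε' hε'
  set η : ℝ := c₁ * ε' / (4 * K₁) with hη
  have hη0 : 0 < η := by positivity
  set ε : ℝ := min 1 (c₁ * ε' / (2 * (c₂ + 1))) with hε
  have hε0 : 0 < ε := lt_min one_pos (by positivity)
  obtain ⟨r₀, hr₀, hN⟩ := h ε hε0
  obtain ⟨ρ, hρ, hρd⟩ := Metric.eventually_nhds_iff_ball.1
    (unif_diff κ _ (isCompact_closedBall u₀ R) hκs η hη0)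
  obtain ⟨r₃, hr₃, hr₃c⟩ := Metric.uniformContinuousOn_iff.1
    ((isCompact_closedBall (0 : E n) r₂).uniformContinuousOn_of_continuous hr₂c) ρ hρ
  refine ⟨min r₀ (min (r₂ / 2) (r₃ / 2)), by positivity, ?_⟩
  intro p hp s hs hs'
  have hp1 : ‖p‖ ≤ r := hp.trans (min_le_left _ _)
  have hp2 : ‖p‖ ≤ r₂ / 2 := hp.trans (min_le_right _ _)
  have hs1 : s ≤ r₀ := hs'.trans (min_le_left _ _)
  have hs2 : s ≤ r₂ / 2 := hs'.trans ((min_le_right _ _).trans (min_le_left _ _))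
  have hs3 : s ≤ r₃ / 2 := hs'.trans ((min_le_right _ _).trans (min_le_right _ _))
  obtain ⟨T, l, hl, hT, hT'⟩ := hN p hp1 s hs hs1
  have hpm : p ∈ closedBall (0 : E n) r₂ := by
    rw [mem_closedBall_zero_iff]
    linarith
  set u := ψ (g (A p)) with hu
  have huR : u ∈ closedBall u₀ R := hr₂R p hpm
  refine ⟨(fderiv ℝ κ u).comp T, c₁ * l, by positivity, ?_, ?_⟩
  · intro v
    rw [ContinuousLinearMap.comp_apply]
    constructor
    · have e1 := hc₁' u huR (T v)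
      have e2 := mul_le_mul_of_nonneg_left (hT v).1 hc₁.le
      linarith
    · have e1 : ‖fderiv ℝ κ u (T v)‖ ≤ c₂ * ‖T v‖ :=
        ((fderiv ℝ κ u).le_opNorm _).trans (mul_le_mul_of_nonneg_right (hc₂ u huR) (norm_nonneg _))
      have e2 : c₂ * ‖T v‖ ≤ c₂ * (K₁ * (l * ‖v‖)) := by
        apply mul_le_mul_of_nonneg_left _ hc₂0
        exact (hT v).2.trans (mul_le_mul_of_nonneg_right hKK (by positivity))
      have e3 : c₂ * (K₁ * (l * ‖v‖)) = c₂ * K₁ / c₁ * (c₁ * l * ‖v‖) := by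
        field_simp
      linarith
  · intro q hq
    have hqm : q ∈ closedBall (0 : E n) r₂ := by
      rw [mem_closedBall_zero_iff]
      have := norm_le_norm_add_norm_sub' q p
      linarith
    set w := ψ (g (A q)) - u with hw
    have hwρ : w ∈ ball (0 : E n) ρ := by
      rw [mem_ball_zero_iff, hw, ← dist_eq_norm]
      exact hr₃c q hqm p hpm (by rw [dist_eq_norm]; linarith)
    have e1 := hρd w hwρ u huR
    have e2 : κ (u + w) = e (g (A q)) := by
      rw [hw, add_sub_cancel, hκ]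
      simp only
      rw [hr₂k q hqm]
    have e3 : κ u = e (g (A p)) := by
      rw [hκ]
      simp only
      rw [hu, hr₂k p hpm]
    rw [e2, e3] at e1
    have e4 := hT' q hq
    change ‖w - T (q - p)‖ ≤ _ at e4
    have e5 : ‖T (q - p)‖ ≤ K₁ * (l * s) := by
      refine (hT (q - p)).2.trans ?_
      have : K * (l * ‖q - p‖) ≤ K₁ * (l * ‖q - p‖) :=
        mul_le_mul_of_nonneg_right hKK (by positivity)
      refine this.trans ?_
      gcongr
    have e6 : ‖w‖ ≤ 2 * K₁ * (l * s) := by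
      have f1 : ‖w‖ ≤ ‖T (q - p)‖ + ‖w - T (q - p)‖ := by
        have := norm_add_le (T (q - p)) (w - T (q - p))
        rwa [add_sub_cancel] at this
      have f2 : ε * l * s ≤ K₁ * (l * s) := by
        rw [mul_assoc]
        apply mul_le_mul_of_nonneg_right _ (by positivity)
        exact (min_le_left _ _).trans hK₁1
      linarith
    have e7 : e (g (A q)) - e (g (A p)) - (fderiv ℝ κ u).comp T (q - p) =
        (e (g (A q)) - e (g (A p)) - fderiv ℝ κ u w) + fderiv ℝ κ u (w - T (q - p)) := by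
      have f1 : fderiv ℝ κ u (w - T (q - p)) =
          fderiv ℝ κ u w - (fderiv ℝ κ u).comp T (q - p) := (fderiv ℝ κ u).map_sub w (T (q - p))
      rw [f1]
      abel
    rw [e7]
    refine (norm_add_le _ _).trans ?_
    have e8 : ‖fderiv ℝ κ u (w - T (q - p))‖ ≤ c₂ * (ε * l * s) :=
      ((fderiv ℝ κ u).le_opNorm _).trans (mul_le_mul (hc₂ u huR) e4 (norm_nonneg _) hc₂0)
    have e9 : η * ‖w‖ ≤ η * (2 * K₁ * (l * s)) := mul_le_mul_of_nonneg_left e6 hη0.le
    have e10 : η * (2 * K₁ * (l * s)) = c₁ * ε' / 2 * (l * s) := by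
      rw [hη]
      field_simp
      ring
    have e11 : c₂ * (ε * l * s) ≤ c₁ * ε' / 2 * (l * s) := by
      have f1 : c₂ * ε ≤ c₁ * ε' / 2 := by
        have f2 : ε ≤ c₁ * ε' / (2 * (c₂ + 1)) := min_le_right _ _
        calc c₂ * ε ≤ (c₂ + 1) * (c₁ * ε' / (2 * (c₂ + 1))) := by
              apply mul_le_mul (by linarith) f2 hε0.le (by linarith)
          _ = c₁ * ε' / 2 := by field_simp
      calc c₂ * (ε * l * s) = (c₂ * ε) * (l * s) := by ring
        _ ≤ _ := mul_le_mul_of_nonneg_right f1 (by positivity)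
    calc _ ≤ η * ‖w‖ + c₂ * (ε * l * s) := add_le_add e1 e8
      _ ≤ c₁ * ε' / 2 * (l * s) + c₁ * ε' / 2 * (l * s) := by linarith
      _ = ε' * (c₁ * l) * s := by ring

/-- a bijective local diffeomorphism is a diffeomorphism -/
theorem diffeo_of_LD {n : ℕ} {M N : Type} [TopologicalSpace M] [ChartedSpace (E n) M]
    [TopologicalSpace N] [ChartedSpace (E n) N] (G : M → N) (hG : Bijective G)
    (h : ∀ x, LD n G x) : ∃ D : Diffeomorph (𝓡 n) (𝓡 n) M N ∞, ∀ x, D x = G x :=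
  ⟨IsLocalDiffeomorph.diffeomorphOfBijective (fun x => h x) hG, fun _ => rfl⟩

/-- neighbourhoods of the graph -/
theorem graph_nhd {m : ℕ} {M N : Type} [TopologicalSpace M] [CompactSpace M] [TopologicalSpace N]
    [CompactSpace N] (g : M → N) (hg : Continuous g) (e : N → E m) (he : IsEmbedding e)
    (W : Set (M × N)) (hW : IsOpen W) (hgW : ∀ x, (x, g x) ∈ W) :
    ∃ ρ₀ : ℝ, 0 < ρ₀ ∧ ∀ x y, ‖e y - e (g x)‖ ≤ ρ₀ → (x, y) ∈ W := by
  obtain ⟨σ, hσ, hσ'⟩ := hW.isClosed_compl.isCompact.exists_forall_le'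
    (f := fun p : M × N => ‖e p.2 - e (g p.1)‖) (by
      have := he.continuous
      fun_prop) (a := 0) (by
      rintro ⟨x, y⟩ hx
      rw [norm_pos_iff, sub_ne_zero]
      intro hcon
      apply hx
      have := he.injective hcon
      simp only at this
      rw [this]
      exact hgW x)
  refine ⟨σ / 2, by linarith, fun x y hxy => ?_⟩
  by_contra hcon
  have := hσ' (x, y) hcon
  simp only at this
  linarith

/-- immersions, through linear projections -/
theorem mfd_inj {n m : ℕ} {N : Type} [TopologicalSpace N] [ChartedSpace (E n) N]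
    [IsManifold (𝓡 n) ∞ N] (e : N → E m) (he : ContMDiff (𝓡 n) (𝓡 m) ∞ e) (y : N)
    (h : ∃ A : E m →L[ℝ] E n, LD n (fun z => A (e z)) y) :
    Injective (mfderiv (𝓡 n) (𝓡 m) e y) := by
  obtain ⟨A, hA⟩ := h
  have h1 := hA.mfderiv_injective
  have h2 : mfderiv (𝓡 n) (𝓡 n) (A ∘ e) y =
      (mfderiv (𝓡 m) (𝓡 n) A (e y)).comp (mfderiv (𝓡 n) (𝓡 m) e y) :=
    mfderiv_comp y (A.differentiable.differentiableAt.mdifferentiableAt)
      ((he y).mdifferentiableAt (by simp))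
  have h3 : Injective (mfderiv (𝓡 n) (𝓡 n) (A ∘ e) y) := h1
  rw [h2] at h3
  exact Injective.of_comp h3

/-- **Main theorem**, in charts. -/
theorem asym_charts {n : ℕ} (hn : 0 < n) {M N : Type} [TopologicalSpace M]
    [ChartedSpace (E n) M] [IsManifold (𝓡 n) ∞ M] [TopologicalSpace N] [T2Space N]
    [CompactSpace N] [ChartedSpace (E n) N] [IsManifold (𝓡 n) ∞ N] (g : M ≃ₜ N)
    (h : ∀ x, ∃ (A : E n → M) (ψ : N → E n) (K r : ℝ), A 0 = x ∧ LD n A 0 ∧ LD n ψ (g x) ∧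
      0 < r ∧ ∀ ε : ℝ, 0 < ε → ∃ r₀ : ℝ, 0 < r₀ ∧ NLin (fun x => ψ (g x)) A ε K r r₀)
    (W : Set (M × N)) (hW : IsOpen W) (hgW : ∀ x, (x, g x) ∈ W) :
    ∃ D : Diffeomorph (𝓡 n) (𝓡 n) M N ∞, ∀ x, (x, D x) ∈ W := by
  obtain ⟨m, e, he, hemb, hei⟩ := exists_embedding_euclidean_of_compact (I := 𝓡 n) (M := N)
  have : CompactSpace M := g.symm.compactSpace
  obtain ⟨ρ₀, hρ₀, hρW⟩ := graph_nhd g g.continuous e hemb.isEmbedding W hW hgW
  obtain ⟨G, hG, hGL, hGe⟩ := glob_asym hn e he hemb.isEmbedding hei M g (by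
    intro x
    obtain ⟨A, ψ, K, r, hA0, hA, hψ, hr, hN⟩ := h x
    rw [← hA0] at hψ
    obtain ⟨K', r', hr', hN'⟩ := conv e he hei g g.continuous A hA ψ hψ K r hr hN
    exact ⟨A, K', r', hA0, hA, hr', hN'⟩) ρ₀ hρ₀
  obtain ⟨D, hD⟩ := diffeo_of_LD G hG hGL
  exact ⟨D, fun x => hρW x _ (by rw [hD]; exact hGe x)⟩

end Pool.Agent.X169.NM
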