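import Pool.Agent.X169.NM.Clos
import Pool.Agent.X169.NL.Glob

/-! The smoothing theorem for homeomorphisms between closed manifolds. -/

set_option autoImplicit false

open Set Filter Topology Metric Function
open scoped Manifold ContDiff

noncomputable section

namespace Pool.Agent.X169.NM

open Pool.Agent.Y522
open Pool.Agent.X169.NL (LD_affine small_ball trans_lip)

/-- nearly linear in the parametrization `A`, at the points of norm at most `r₁`, at all scales up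
to `r₀`, with error `ε` and condition numbers at most `K` -/
def NLin {n m : ℕ} {X : Type} (F : X → E m) (A : E n → X) (ε K r₁ r₀ : ℝ) : Prop :=
  ∀ p : E n, ‖p‖ ≤ r₁ → ∀ r : ℝ, 0 < r → r ≤ r₀ → ∃ (T : E n →L[ℝ] E m) (l : ℝ), 0 < l ∧
    (∀ v, l * ‖v‖ ≤ ‖T v‖ ∧ ‖T v‖ ≤ K * (l * ‖v‖)) ∧
    ∀ q, ‖q - p‖ ≤ r → ‖F (A q) - F (A p) - T (q - p)‖ ≤ ε * l * r

theorem fam {n m : ℕ} (L ε : ℝ) {X : Type} [TopologicalSpace X]
    [ChartedSpace (E n) X] (F : X → E m)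
    (t : Finset X) (A : X → E n → X) (ρ : X → ℝ) (hρ : ∀ x ∈ t, 0 < ρ x)
    (hinj : ∀ x ∈ t, InjOn (A x) (closedBall 0 (4 * ρ x)))
    (hLD : ∀ x ∈ t, ∀ z ∈ closedBall (0 : E n) (4 * ρ x), LD n (A x) z)
    (htr : ∀ x ∈ t, ∀ y ∈ t, ∀ p ∈ closedBall (0 : E n) (3 * ρ x),
      ∀ p' ∈ closedBall (0 : E n) (3 * ρ x), ∀ q ∈ closedBall (0 : E n) (3 * ρ y),
      ∀ q' ∈ closedBall (0 : E n) (3 * ρ y),
      A x p = A y q → A x p' = A y q' → ‖q' - q‖ ≤ L * ‖p' - p‖)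
    (K r₀ : ℝ) (hr₀ : 0 < r₀)
    (hbox : ∀ x ∈ t, NLin F (A x) ε K (2 * ρ x) r₀)
    (hcov : ∀ x, ∃ y ∈ t, x ∈ A y '' ball 0 (ρ y)) :
    ∃ (ι : Type) (_ : Fintype ι) (B : ι → E n → X) (r₁ : ℝ), 0 < r₁ ∧
      (∀ j, InjOn (B j) (closedBall 0 2)) ∧ (∀ j, ∀ z ∈ closedBall (0 : E n) 2, LD n (B j) z) ∧
      (∀ i j, ∀ p ∈ closedBall (0 : E n) 2, ∀ p' ∈ closedBall (0 : E n) 2,
        ∀ q ∈ closedBall (0 : E n) 2, ∀ q' ∈ closedBall (0 : E n) 2,
        B i p = B j q → B i p' = B j q' → ‖q' - q‖ ≤ L * ‖p' - p‖) ∧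
      (∀ j, NB F (B j) ε K r₁) ∧ ∀ x, ∃ j, x ∈ B j '' closedBall 0 (1 / 2) := by
  classical
  -- the common size of the charts
  obtain ⟨c, hc, hcρ⟩ : ∃ c : ℝ, 0 < c ∧ ∀ x ∈ t, c ≤ ρ x := by
    rcases t.eq_empty_or_nonempty with h | h
    · exact ⟨1, one_pos, by simp [h]⟩
    · obtain ⟨x, hx, hx'⟩ := t.exists_min_image ρ h
      exact ⟨ρ x, hρ x hx, hx'⟩
  have hfc : ∀ x : X, ∃ P : Finset (E n), (∀ p ∈ P, p ∈ closedBall (0 : E n) (ρ x)) ∧
      closedBall (0 : E n) (ρ x) ⊆ ⋃ p ∈ P, ball p (c / 2) := by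
    intro x
    obtain ⟨P, hP1, hP2⟩ := (isCompact_closedBall (0 : E n) (ρ x)).finite_cover_balls
      (e := c / 2) (by positivity)
    refine ⟨hP2.1.toFinset, fun p hp => hP1 (by simpa using hp), ?_⟩
    simpa using hP2.2
  choose P hP1 hP2 using hfc
  set S : Finset (X × E n) := t.biUnion fun x => (P x).image fun p => (x, p) with hS
  have hSm : ∀ s ∈ S, s.1 ∈ t ∧ ‖s.2‖ ≤ ρ s.1 := by
    rintro ⟨x, p⟩ hs
    simp only [hS, Finset.mem_biUnion, Finset.mem_image, Prod.mk.injEq] at hs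
    obtain ⟨y, hy, q, hq, rfl, rfl⟩ := hs
    exact ⟨hy, by simpa using hP1 y q hq⟩
  have key : ∀ s : {s // s ∈ S}, ∀ (a : ℝ) (w : E n), ‖w‖ ≤ a →
      ‖s.1.2 + c • w‖ ≤ ρ s.1.1 + c * a := by
    intro s a w hw
    refine (norm_add_le _ _).trans (add_le_add (hSm _ s.2).2 ?_)
    rw [norm_smul, Real.norm_of_nonneg hc.le]
    gcongr
  have hin3 : ∀ s : {s // s ∈ S}, ∀ w ∈ closedBall (0 : E n) 2,
      s.1.2 + c • w ∈ closedBall (0 : E n) (3 * ρ s.1.1) := by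
    intro s w hw
    rw [mem_closedBall_zero_iff] at hw ⊢
    have h1 := key s 2 w hw
    have h2 := hcρ _ (hSm _ s.2).1
    linarith
  have h34 : ∀ s : {s // s ∈ S}, closedBall (0 : E n) (3 * ρ s.1.1) ⊆
      closedBall 0 (4 * ρ s.1.1) := fun s =>
    closedBall_subset_closedBall (by have := hρ _ (hSm _ s.2).1; linarith)
  refine ⟨{s // s ∈ S}, inferInstance, (fun s z => A s.1.1 (s.1.2 + c • z)), r₀ / c,
    by positivity, ?_, ?_, ?_, ?_, ?_⟩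
  · intro s a ha b hb hab
    have h1 := hinj _ (hSm _ s.2).1 (h34 s (hin3 s a ha)) (h34 s (hin3 s b hb)) hab
    have h2 : c • a = c • b := add_left_cancel h1
    exact smul_right_injective _ hc.ne' h2
  · intro s z hz
    exact LD.comp_fun (g := A s.1.1) (f := fun z => s.1.2 + c • z)
      (hLD _ (hSm _ s.2).1 _ (h34 s (hin3 s z hz))) (LD_affine _ _ hc.ne' _)
  · intro i j p hp p' hp' q hq q' hq' h1 h2
    have h3 := htr _ (hSm _ i.2).1 _ (hSm _ j.2).1 _ (hin3 i p hp) _ (hin3 i p' hp') _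
      (hin3 j q hq) _ (hin3 j q' hq') h1 h2
    rw [add_sub_add_left_eq_sub, add_sub_add_left_eq_sub, ← smul_sub, ← smul_sub, norm_smul,
      norm_smul, Real.norm_of_nonneg hc.le] at h3
    have h4 : c * ‖q' - q‖ ≤ c * (L * ‖p' - p‖) := by linarith
    exact le_of_mul_le_mul_left h4 hc
  · intro s p hp r hr hrr
    have h1 : c * r ≤ r₀ := by
      rw [le_div_iff₀ hc] at hrr
      linarith
    have h2 : ‖s.1.2 + c • p‖ ≤ 2 * ρ s.1.1 := by
      have e1 := key s 1 p hp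
      have e2 := hcρ _ (hSm _ s.2).1
      linarith
    obtain ⟨T, l, hl, hT, hT'⟩ := hbox _ (hSm _ s.2).1 _ h2 (c * r) (by positivity) h1
    refine ⟨c • T, c * l, by positivity, ?_, ?_⟩
    · intro v
      have e1 := hT v
      rw [ContinuousLinearMap.smul_apply, norm_smul, Real.norm_of_nonneg hc.le]
      constructor
      · have := mul_le_mul_of_nonneg_left e1.1 hc.le
        linarith
      · have := mul_le_mul_of_nonneg_left e1.2 hc.le
        linarith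
    · intro q hq
      have e1 := hT' (s.1.2 + c • q) (by
        rw [add_sub_add_left_eq_sub, ← smul_sub, norm_smul, Real.norm_of_nonneg hc.le]
        gcongr)
      rw [add_sub_add_left_eq_sub, ← smul_sub, map_smul] at e1
      rw [ContinuousLinearMap.smul_apply]
      refine e1.trans (le_of_eq (by ring))
  · intro x
    obtain ⟨y, hy, w, hw, hwx⟩ := hcov x
    have h1 := hP2 y (ball_subset_closedBall hw)
    simp only [mem_iUnion] at h1
    obtain ⟨p, hp, hpw⟩ := h1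
    refine ⟨⟨(y, p), ?_⟩, c⁻¹ • (w - p), ?_, ?_⟩
    · simp only [hS, Finset.mem_biUnion, Finset.mem_image, Prod.mk.injEq]
      exact ⟨y, hy, p, hp, rfl, rfl⟩
    · rw [mem_closedBall_zero_iff, norm_smul, norm_inv, Real.norm_of_nonneg hc.le,
        inv_mul_le_iff₀ hc]
      rw [mem_ball, dist_eq_norm] at hpw
      linarith
    · simp only [smul_inv_smul₀ hc.ne', add_sub_cancel]
      exact hwx

/-- the retraction, with a bound for its derivative -/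
theorem retr_of_emb {n m : ℕ} {N : Type} [TopologicalSpace N] [CompactSpace N]
    [ChartedSpace (E n) N] [IsManifold (𝓡 n) ∞ N] (e : N → E m)
    (he : ContMDiff (𝓡 n) (𝓡 m) ∞ e) (hemb : IsEmbedding e)
    (hei : ∀ y, Injective (mfderiv (𝓡 n) (𝓡 m) e y)) :
    ∃ (U : Set (E m)) (P : E m → E m) (Λ : ℝ), IsOpen U ∧ range e ⊆ U ∧ ContDiffOn ℝ ∞ P U ∧
      (∀ y ∈ U, P y ∈ range e) ∧ (∀ y ∈ range e, P y = y) ∧ 1 ≤ Λ ∧
      ∀ y ∈ range e, ‖fderiv ℝ P y‖ ≤ Λ := by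
  have hS : IsCompact (range e) := isCompact_range hemb.continuous
  obtain ⟨U, P, hU, hSU, hP, hPS, hPi⟩ := retr (n := n) (range e) hS (by
    rintro _ ⟨x, rfl⟩
    obtain ⟨A, hA⟩ := emb_coord e he x (hei x)
    exact loc_of_coord e he hemb x A hA)
  obtain ⟨C, hC⟩ := hS.exists_bound_of_continuousOn (f := fderiv ℝ P) (by
    intro y hy
    have h1 : ContDiffAt ℝ ∞ P y := (hP y (hSU hy)).contDiffAt (hU.mem_nhds (hSU hy))
    have h2 : ContDiffAt ℝ 1 P y := h1.of_le (by simp)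
    exact ((h2.fderiv_right (m := 0) (by simp)).continuousAt).continuousWithinAt)
  exact ⟨U, P, max C 1, hU, hSU, hP, hPS, hPi, le_max_right _ _, fun y hy =>
    (hC y hy).trans (le_max_left _ _)⟩

/-- **Fixed error.** -/
theorem glob_fixed {n m : ℕ} (hn : 0 < n) (L : ℝ) (hL : 1 ≤ L) {N : Type} [TopologicalSpace N]
    [CompactSpace N] [ChartedSpace (E n) N] [IsManifold (𝓡 n) ∞ N] (e : N → E m)
    (he : ContMDiff (𝓡 n) (𝓡 m) ∞ e) (hemb : IsEmbedding e)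
    (hei : ∀ y, Injective (mfderiv (𝓡 n) (𝓡 m) e y)) :
    ∃ ε₀ : ℝ, 0 < ε₀ ∧ ∀ (X : Type) [TopologicalSpace X] [ChartedSpace (E n) X]
      [IsManifold (𝓡 n) ∞ X] (g : X ≃ₜ N) (d : X → X → ℝ),
      (∀ x, ∃ (A : E n → X) (K r : ℝ), A 0 = x ∧ LD n A 0 ∧ 0 < r ∧
        (∀ p q : E n, ‖p‖ ≤ r → ‖q‖ ≤ r →
          ‖q - p‖ ≤ L * d (A p) (A q) ∧ d (A p) (A q) ≤ L * ‖q - p‖) ∧
        NLin (fun x => e (g x)) A ε₀ K r r) →
      ∀ ρ₀ : ℝ, 0 < ρ₀ → ∃ G : X → N, Bijective G ∧ (∀ x, LD n G x) ∧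
        ∀ x, ‖e (G x) - e (g x)‖ ≤ ρ₀ := by
  classical
  obtain ⟨U, P, Λ, hU, hSU, hP, hPS, hPi, hΛ, hPn⟩ := retr_of_emb e he hemb hei
  have hL0 : 0 < L := by linarith
  have hΛ0 : 0 < Λ := by linarith
  refine ⟨ep n (L ^ 2) (1 / (80 * Λ)), ep_pos n (one_le_pow₀ hL) (by positivity), ?_⟩
  intro X _ _ _ g d h ρ₀ hρ₀
  have : T2Space X := (hemb.comp g.isEmbedding).t2Space
  have : CompactSpace X := g.symm.compactSpace
  have h' : ∀ x, ∃ (A : E n → X) (K ρ : ℝ), (A 0 = x ∧ LD n A 0 ∧ 0 < ρ ∧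
      InjOn A (closedBall 0 (4 * ρ)) ∧ (∀ z ∈ closedBall (0 : E n) (4 * ρ), LD n A z) ∧
      (∀ p q : E n, ‖p‖ ≤ 3 * ρ → ‖q‖ ≤ 3 * ρ →
        ‖q - p‖ ≤ L * d (A p) (A q) ∧ d (A p) (A q) ≤ L * ‖q - p‖) ∧
      NLin (fun x => e (g x)) A (ep n (L ^ 2) (1 / (80 * Λ))) K (2 * ρ) ρ) := by
    intro x
    obtain ⟨A, K, r, hA0, hAd, hr, hd, hN⟩ := h x
    obtain ⟨r', hr', hi, hl⟩ := small_ball A hAd
    have hρ : 0 < min (r / 3) (r' / 4) := by positivity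
    have e1 : min (r / 3) (r' / 4) ≤ r / 3 := min_le_left _ _
    have e2 : min (r / 3) (r' / 4) ≤ r' / 4 := min_le_right _ _
    have e3 : closedBall (0 : E n) (4 * min (r / 3) (r' / 4)) ⊆ closedBall 0 r' :=
      closedBall_subset_closedBall (by linarith)
    refine ⟨A, K, min (r / 3) (r' / 4), ⟨hA0, hAd, hρ, hi.mono e3,
      fun z hz => hl z (e3 hz), fun p q hp hq => hd p q (by linarith) (by linarith), ?_⟩⟩
    intro p hp s hs hs'
    exact hN p (by linarith) s hs (by linarith)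
  choose A K ρ hA using h'
  obtain ⟨t', hcov⟩ := (isCompact_univ (X := X)).elim_nhds_subcover (fun x => A x '' ball 0 (ρ x))
    (by
    intro x _
    obtain ⟨h0, -, hρ, -, hl, -, -⟩ := hA x
    have h1 : A x '' ball 0 (ρ x) ∈ 𝓝 (A x 0) := by
      apply (hl 0 (by simp; linarith)).image_mem_nhds
      exact ball_mem_nhds _ hρ
    rwa [h0] at h1)
  obtain ⟨K', hK'⟩ := (t'.image K).exists_le
  obtain ⟨r₀, hr₀, hr₀'⟩ : ∃ c : ℝ, 0 < c ∧ ∀ x ∈ t', c ≤ ρ x := by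
    rcases t'.eq_empty_or_nonempty with h | h
    · exact ⟨1, one_pos, by simp [h]⟩
    · obtain ⟨x, hx, hx'⟩ := t'.exists_min_image ρ h
      exact ⟨ρ x, (hA x).2.2.1, hx'⟩
  obtain ⟨ι, _, B, r₁, hr₁, f1, f2, f3, f4, f5⟩ := fam (L ^ 2) (ep n (L ^ 2) (1 / (80 * Λ)))
    (fun x => e (g x)) t' A ρ
    (fun x _ => (hA x).2.2.1) (fun x _ => (hA x).2.2.2.1)
    (fun x _ => (hA x).2.2.2.2.1) (by
      intro x hx y hy p hp p' hp' q hq q' hq' e1 e2
      have f1 := (hA x).2.2.2.2.2.1 p p' (by simpa using hp) (by simpa using hp')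
      have f2 := (hA y).2.2.2.2.2.1 q q' (by simpa using hq) (by simpa using hq')
      rw [← e1, ← e2] at f2
      calc ‖q' - q‖ ≤ L * d (A x p) (A x p') := f2.1
        _ ≤ L * (L * ‖p' - p‖) := mul_le_mul_of_nonneg_left f1.2 hL0.le
        _ = L ^ 2 * ‖p' - p‖ := by ring) (max K' 1) r₀ hr₀ (by
      intro x hx p hp r hr hr'
      obtain ⟨T, l, hl, hT, hT'⟩ := (hA x).2.2.2.2.2.2 p hp r hr
        (hr'.trans (hr₀' x hx))
      refine ⟨T, l, hl, fun v => ⟨(hT v).1, (hT v).2.trans ?_⟩, hT'⟩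
      apply mul_le_mul_of_nonneg_right _ (by positivity)
      exact (hK' _ (Finset.mem_image_of_mem K hx)).trans (le_max_left _ _)) (by
      intro x
      have h1 := hcov.2 (mem_univ x)
      simp only [mem_iUnion] at h1
      obtain ⟨y, hy, hyx⟩ := h1
      exact ⟨y, hy, hyx⟩)
  exact clos hn g e he hemb hei U P hU hSU hP hPS hPi Λ hΛ hPn (L ^ 2) (one_le_pow₀ hL) B f1 f2 f3
    (max K' 1) r₁ (le_max_right _ _) hr₁ f4 f5 ρ₀ hρ₀

/-- **Asymptotically linear**, as maps to the Euclidean space of the embedding. -/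
theorem glob_asym {n m : ℕ} (hn : 0 < n) {N : Type} [TopologicalSpace N]
    [CompactSpace N] [ChartedSpace (E n) N] [IsManifold (𝓡 n) ∞ N] (e : N → E m)
    (he : ContMDiff (𝓡 n) (𝓡 m) ∞ e) (hemb : IsEmbedding e)
    (hei : ∀ y, Injective (mfderiv (𝓡 n) (𝓡 m) e y))
    (X : Type) [TopologicalSpace X] [ChartedSpace (E n) X]
    [IsManifold (𝓡 n) ∞ X] (g : X ≃ₜ N)
    (h : ∀ x, ∃ (A : E n → X) (K r : ℝ), A 0 = x ∧ LD n A 0 ∧ 0 < r ∧
      ∀ ε : ℝ, 0 < ε → ∃ r₀ : ℝ, 0 < r₀ ∧ NLin (fun x => e (g x)) A ε K r r₀) (ρ₀ : ℝ)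
    (hρ₀ : 0 < ρ₀) : ∃ G : X → N, Bijective G ∧ (∀ x, LD n G x) ∧
      ∀ x, ‖e (G x) - e (g x)‖ ≤ ρ₀ := by
  classical
  obtain ⟨U, P, Λ, hU, hSU, hP, hPS, hPi, hΛ, hPn⟩ := retr_of_emb e he hemb hei
  have hΛ0 : 0 < Λ := by linarith
  have : T2Space X := (hemb.comp g.isEmbedding).t2Space
  have : CompactSpace X := g.symm.compactSpace
  have h' : ∀ x, ∃ (A : E n → X) (K ρ : ℝ), (A 0 = x ∧ LD n A 0 ∧ 0 < ρ ∧
      InjOn A (closedBall 0 (4 * ρ)) ∧ (∀ z ∈ closedBall (0 : E n) (4 * ρ), LD n A z) ∧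
      ∀ ε : ℝ, 0 < ε → ∃ r₀ : ℝ, 0 < r₀ ∧ NLin (fun x => e (g x)) A ε K (2 * ρ) r₀) := by
    intro x
    obtain ⟨A, K, r, hA0, hAd, hr, hN⟩ := h x
    obtain ⟨r', hr', hi, hl⟩ := small_ball A hAd
    have hρ : 0 < min (r / 3) (r' / 4) := by positivity
    have e1 : min (r / 3) (r' / 4) ≤ r / 3 := min_le_left _ _
    have e2 : min (r / 3) (r' / 4) ≤ r' / 4 := min_le_right _ _
    have e3 : closedBall (0 : E n) (4 * min (r / 3) (r' / 4)) ⊆ closedBall 0 r' :=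
      closedBall_subset_closedBall (by linarith)
    refine ⟨A, K, min (r / 3) (r' / 4), ⟨hA0, hAd, hρ, hi.mono e3,
      fun z hz => hl z (e3 hz), fun ε hε => ?_⟩⟩
    obtain ⟨r₀, hr₀, hN'⟩ := hN ε hε
    exact ⟨r₀, hr₀, fun p hp s hs hs' => hN' p (by linarith) s hs hs'⟩
  choose A K ρ hA using h'
  obtain ⟨t', hcov⟩ := (isCompact_univ (X := X)).elim_nhds_subcover (fun x => A x '' ball 0 (ρ x))
    (by
    intro x _
    obtain ⟨h0, -, hρ, -, hl, -⟩ := hA x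
    have h1 : A x '' ball 0 (ρ x) ∈ 𝓝 (A x 0) := by
      apply (hl 0 (by simp; linarith)).image_mem_nhds
      exact ball_mem_nhds _ hρ
    rwa [h0] at h1)
  obtain ⟨K', hK'⟩ := (t'.image K).exists_le
  -- the Lipschitz constant of the changes of charts
  have hlip : ∀ s : X × X, ∃ L : ℝ, ∀ p ∈ closedBall (0 : E n) (3 * ρ s.1),
      ∀ p' ∈ closedBall (0 : E n) (3 * ρ s.1), ∀ q ∈ closedBall (0 : E n) (3 * ρ s.2),
      ∀ q' ∈ closedBall (0 : E n) (3 * ρ s.2),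
      A s.1 p = A s.2 q → A s.1 p' = A s.2 q' → ‖q' - q‖ ≤ L * ‖p' - p‖ := by
    intro s
    obtain ⟨-, -, hρ1, -, hl1, -⟩ := hA s.1
    obtain ⟨-, -, hρ2, hi2, hl2, -⟩ := hA s.2
    exact trans_lip (A s.1) (A s.2) (ρ s.1) (ρ s.2) hρ2
      (fun z hz => hl1 z (closedBall_subset_closedBall (by linarith) hz)) hi2 hl2
  choose Lf hLf using hlip
  obtain ⟨L', hL'⟩ := ((t' ×ˢ t').image Lf).exists_le
  set L : ℝ := max L' 1 with hLd
  have hL : 1 ≤ L := le_max_right _ _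
  have hr0 : ∀ x, ∃ r₀ : ℝ, 0 < r₀ ∧
      NLin (fun x => e (g x)) (A x) (ep n L (1 / (80 * Λ))) (K x) (2 * ρ x) r₀ := fun x =>
    (hA x).2.2.2.2.2 _ (ep_pos n hL (by positivity))
  choose r1 hr1 hr1' using hr0
  obtain ⟨r₀, hr₀, hr₀'⟩ : ∃ c : ℝ, 0 < c ∧ ∀ x ∈ t', c ≤ r1 x := by
    rcases t'.eq_empty_or_nonempty with h | h
    · exact ⟨1, one_pos, by simp [h]⟩
    · obtain ⟨x, hx, hx'⟩ := t'.exists_min_image r1 h
      exact ⟨r1 x, hr1 x, hx'⟩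
  obtain ⟨ι, _, B, r₁, hr₁, f1, f2, f3, f4, f5⟩ := fam L (ep n L (1 / (80 * Λ)))
    (fun x => e (g x)) t' A ρ
    (fun x _ => (hA x).2.2.1) (fun x _ => (hA x).2.2.2.1)
    (fun x _ => (hA x).2.2.2.2.1) (by
      intro x hx y hy p hp p' hp' q hq q' hq' e1 e2
      refine (hLf (x, y) p hp p' hp' q hq q' hq' e1 e2).trans ?_
      apply mul_le_mul_of_nonneg_right _ (norm_nonneg _)
      exact (hL' _ (Finset.mem_image_of_mem Lf (Finset.mem_product.2 ⟨hx, hy⟩))).trans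
        (le_max_left _ _)) (max K' 1) r₀ hr₀ (by
      intro x hx p hp r hr hr'
      obtain ⟨T, l, hl, hT, hT'⟩ := hr1' x p hp r hr (hr'.trans (hr₀' x hx))
      refine ⟨T, l, hl, fun v => ⟨(hT v).1, (hT v).2.trans ?_⟩, hT'⟩
      apply mul_le_mul_of_nonneg_right _ (by positivity)
      exact (hK' _ (Finset.mem_image_of_mem K hx)).trans (le_max_left _ _)) (by
      intro x
      have h1 := hcov.2 (mem_univ x)
      simp only [mem_iUnion] at h1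
      obtain ⟨y, hy, hyx⟩ := h1
      exact ⟨y, hy, hyx⟩)
  exact clos hn g e he hemb hei U P hU hSU hP hPS hPi Λ hΛ hPn L hL B f1 f2 f3
    (max K' 1) r₁ (le_max_right _ _) hr₁ f4 f5 ρ₀ hρ₀

end Pool.Agent.X169.NM
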