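import Pool.Agent.X169.NM.Est
import Pool.Agent.Y522.Sch

/-! The smoothing of nearly linear maps of a closed manifold to a Euclidean space. -/

set_option autoImplicit false

open Set Filter Topology Metric Function MeasureTheory
open scoped Manifold ContDiff

noncomputable section

namespace Pool.Agent.X169.NM

open Pool.Agent.Y522
open Pool.Agent.X169.NL (kd Ck Ck_nonneg)

/-- nearly linear at all small scales, in the chart `B` -/
def NB {n m : ℕ} {X : Type} (F : X → E m) (B : E n → X) (ε K r₀ : ℝ) : Prop :=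
  ∀ p : E n, ‖p‖ ≤ 1 → ∀ r : ℝ, 0 < r → r ≤ r₀ → ∃ (T : E n →L[ℝ] E m) (l : ℝ), 0 < l ∧
    (∀ v, l * ‖v‖ ≤ ‖T v‖ ∧ ‖T v‖ ≤ K * (l * ‖v‖)) ∧
    ∀ q, ‖q - p‖ ≤ r → ‖F (B q) - F (B p) - T (q - p)‖ ≤ ε * l * r

theorem core {n m : ℕ} (L θ : ℝ) (hL : 1 ≤ L) (hθ : 0 < θ) (hθ4 : θ ≤ 1 / 4) {X : Type}
    [TopologicalSpace X] [T2Space X] [CompactSpace X]
    [ChartedSpace (E n) X] [IsManifold (𝓡 n) ∞ X] (F : X → E m) (hF : Continuous F)
    {ι : Type} [Fintype ι] (B : ι → E n → X) (hinj : ∀ j, InjOn (B j) (closedBall 0 2))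
    (hLD : ∀ j, ∀ z ∈ closedBall (0 : E n) 2, LD n (B j) z)
    (htr : ∀ i j, ∀ p ∈ closedBall (0 : E n) 2, ∀ p' ∈ closedBall (0 : E n) 2,
      ∀ q ∈ closedBall (0 : E n) 2, ∀ q' ∈ closedBall (0 : E n) 2,
      B i p = B j q → B i p' = B j q' → ‖q' - q‖ ≤ L * ‖p' - p‖)
    (K r₀ : ℝ) (hK : 1 ≤ K) (hr₀ : 0 < r₀) (hbox : ∀ j, NB F (B j) (ep n L θ) K r₀)
    (hcov : ∀ x, ∃ j, x ∈ B j '' closedBall 0 (1 / 2)) (η₀ : ℝ) (hη₀ : 0 < η₀) :
    ∃ (F' : X → E m) (δ : ℝ), 0 < δ ∧ δ ≤ η₀ ∧
      (∀ i, ∀ w ∈ ball (0 : E n) 2, ContDiffAt ℝ ∞ (fun y => F' (B i y)) w) ∧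
      ∀ i, ∀ z ∈ closedBall (0 : E n) 1, ∃ (T : E n →L[ℝ] E m) (l : ℝ), 0 < l ∧
        (∀ v, l * ‖v‖ ≤ ‖T v‖ ∧ ‖T v‖ ≤ K * (l * ‖v‖)) ∧
        (∀ q, ‖q - z‖ ≤ δ → ‖F (B i q) - F (B i z) - T (q - z)‖ ≤ θ * l * δ) ∧
        (∀ v, ‖v‖ = 1 → ‖F' (B i z) - F (B i z)‖ ≤ θ * ‖T v‖ * δ) ∧
        (∀ v, ‖v‖ = 1 → ‖fderiv ℝ (fun y => F' (B i y)) z v - T v‖ ≤ 2 * θ * ‖T v‖) := by
  classical
  have hL0 : 0 < L := by linarith
  have hK0 : 0 < K := by linarith
  have he0 := ep_pos n hL hθ
  have he18 := ep_le' n hL hθ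
  have : LocallyCompactSpace X := ChartedSpace.locallyCompactSpace (E n) X
  have s12 : closedBall (0 : E n) 1 ⊆ ball 0 2 := closedBall_subset_ball (by norm_num)
  have s12' : closedBall (0 : E n) 1 ⊆ closedBall 0 2 := closedBall_subset_closedBall (by norm_num)
  have hBc : ∀ j, ContinuousOn (B j) (closedBall 0 2) :=
    fun j z hz => (hLD j z hz).continuousAt.continuousWithinAt
  have hopen : ∀ j (r : ℝ), r ≤ 2 → IsOpen (B j '' ball 0 r) := fun j r hr =>
    isOpen_image_of_LD isOpen_ball fun z hz =>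
      hLD j z (closedBall_subset_closedBall hr (ball_subset_closedBall hz))
  have hcomp : ∀ j (r : ℝ), r ≤ 2 → IsCompact (B j '' closedBall 0 r) := fun j r hr =>
    (isCompact_closedBall _ _).image_of_continuousOn ((hBc j).mono (closedBall_subset_closedBall hr))
  obtain ⟨ρ, hρ⟩ := SmoothPartitionOfUnity.exists_isSubordinate (𝓡 n) (isClosed_univ (X := X))
    (fun j => B j '' ball 0 1) (fun j => hopen j _ (by norm_num)) (by
      intro x _
      obtain ⟨j, hj⟩ := hcov x
      exact mem_iUnion.2 ⟨j, image_mono (closedBall_subset_ball (by norm_num)) hj⟩)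
  have hρ0 : ∀ j x, 0 ≤ ρ j x := fun j x => ρ.nonneg j x
  have hρ1 : ∀ x, ∑ j, ρ j x = 1 := fun x => by
    rw [← finsum_eq_sum_of_fintype]
    exact ρ.sum_eq_one (mem_univ x)
  have hρt : ∀ j, tsupport (ρ j) ⊆ B j '' ball 0 1 := fun j => hρ j
  -- inverses
  obtain ⟨inv, hinv⟩ : ∃ inv : ι → X → E n, ∀ j, ∀ z ∈ closedBall (0 : E n) 2,
      inv j (B j z) = z := ⟨fun j => invFunOn (B j) (closedBall 0 2), fun j z hz =>
        (hinj j).leftInvOn_invFunOn hz⟩
  have hinvLD : ∀ j, ∀ z ∈ ball (0 : E n) 2, LD n (inv j) (B j z) := fun j z hz =>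
    LD.inverse isOpen_ball (fun w hw => hLD j w (ball_subset_closedBall hw))
      (fun w hw => hinv j w (ball_subset_closedBall hw)) hz
  have hφLD : ∀ i j, ∀ z ∈ closedBall (0 : E n) 2, B i z ∈ B j '' ball 0 2 →
      LD n (fun w => inv j (B i w)) z := by
    intro i j z hz hzj
    obtain ⟨w, hw, hwz⟩ := hzj
    refine LD.comp_fun (g := inv j) ?_ (hLD i z hz)
    rw [← hwz]
    exact hinvLD j w hw
  have hρB : ∀ i j, ∀ z ∈ closedBall (0 : E n) 2, ContDiffAt ℝ ∞ (fun w => ρ j (B i w)) z := by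
    intro i j z hz
    apply ContMDiffAt.contDiffAt
    exact ((ρ j).contMDiff (B i z)).comp z (hLD i z hz).contMDiffAt
  have hGc : ∀ j, ContinuousOn (fun z => F (B j z)) (closedBall 0 2) := fun j =>
    hF.comp_continuousOn (hBc j)
  -- compact sets
  have hKij : ∀ i j, IsCompact (closedBall (0 : E n) 1 ∩ (B i) ⁻¹' (B j '' closedBall 0 1)) := by
    intro i j
    refine (isCompact_closedBall (0 : E n) 1).of_isClosed_subset ?_ inter_subset_left
    exact ((hBc i).mono s12').preimage_isClosed_of_isClosed isClosed_closedBall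
      (hcomp j 1 (by norm_num)).isClosed
  have hφ1 : ∀ i j, ∀ z ∈ closedBall (0 : E n) 1 ∩ (B i) ⁻¹' (B j '' closedBall 0 1),
      LD n (fun w => inv j (B i w)) z := fun i j z hz =>
    hφLD i j z (s12' hz.1) (image_mono s12 hz.2)
  -- bound of the derivatives of the partition
  have hCb : ∀ i j, ∃ c : ℝ, ∀ z ∈ closedBall (0 : E n) 1,
      ‖fderiv ℝ (fun w => ρ j (B i w)) z‖ ≤ c := by
    intro i j
    apply (isCompact_closedBall (0 : E n) 1).exists_bound_of_continuousOn
    intro z hz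
    have h1 : ContDiffAt ℝ 1 (fun w => ρ j (B i w)) z := (hρB i j z (s12' hz)).of_le (by simp)
    exact ((h1.fderiv_right (m := 0) (by simp)).continuousAt).continuousWithinAt
  choose c hc using hCb
  set cc : ℝ := ∑ i, ∑ j, |c i j| with hcc
  have hcc0 : 0 ≤ cc := Finset.sum_nonneg fun i _ => Finset.sum_nonneg fun j _ => abs_nonneg _
  have hcs : ∀ i, ∑ j, |c i j| ≤ cc := fun i =>
    Finset.single_le_sum (f := fun i => ∑ j, |c i j|)
      (fun i _ => Finset.sum_nonneg fun j _ => abs_nonneg _) (Finset.mem_univ i)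
  -- the uniform statements
  have hη : (0 : ℝ) < θ / (16 * L * K) := by positivity
  have U1 : ∀ᶠ v in 𝓝 (0 : E n), ∀ i j,
      ∀ z ∈ closedBall (0 : E n) 1 ∩ (B i) ⁻¹' (B j '' closedBall 0 1),
      ‖inv j (B i (z + v)) - inv j (B i z) - fderiv ℝ (fun w => inv j (B i w)) z v‖ ≤
        θ / (16 * L * K) * ‖v‖ := by
    rw [eventually_all]
    intro i
    rw [eventually_all]
    intro j
    exact unif_diff (fun w => inv j (B i w)) _ (hKij i j)
      (fun z hz => (hφ1 i j z hz).contDiffAt) _ hη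
  have U2 : ∀ᶠ v in 𝓝 (0 : E n), ∀ i j,
      ∀ z ∈ closedBall (0 : E n) 1 ∩ (B i) ⁻¹' (B j '' closedBall 0 1),
      B i (z + v) ∈ B j '' ball 0 2 := by
    rw [eventually_all]
    intro i
    rw [eventually_all]
    intro j
    apply (hKij i j).eventually_forall_of_forall_eventually
    intro z hz
    have c1 : Tendsto (fun p : E n × E n => p.2 + p.1) (𝓝 ((0 : E n), z)) (𝓝 z) := by
      have : Continuous (fun p : E n × E n => p.2 + p.1) := by fun_prop
      have h := this.tendsto ((0 : E n), z)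
      simpa using h
    have c2 : ∀ᶠ w in 𝓝 z, B i w ∈ B j '' ball 0 2 :=
      (hLD i z (s12' hz.1)).continuousAt ((hopen j 2 le_rfl).mem_nhds (image_mono s12 hz.2))
    exact c1.eventually c2
  obtain ⟨δ₁, hδ₁, hU⟩ := Metric.eventually_nhds_iff_ball.1 (U1.and U2)
  -- the scale
  obtain ⟨δ, hδ, hδ1, hδr, hδ4, hδc⟩ : ∃ δ : ℝ, 0 < δ ∧ δ < δ₁ ∧ (δ ≤ r₀ ∧ δ ≤ η₀) ∧ δ ≤ 1 / 4 ∧
      δ * (16 * K * L * cc) ≤ θ := by
    refine ⟨min (min (δ₁ / 2) (min r₀ η₀)) (min (1 / 4) (θ / (16 * K * L * cc + 1))),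
      ?_, ?_, ⟨?_, ?_⟩, ?_, ?_⟩
    · have : 0 < θ / (16 * K * L * cc + 1) := by positivity
      simp only [lt_min_iff]
      exact ⟨⟨by linarith, hr₀, hη₀⟩, by norm_num, this⟩
    · exact lt_of_le_of_lt ((min_le_left _ _).trans (min_le_left _ _)) (by linarith)
    · exact (min_le_left _ _).trans ((min_le_right _ _).trans (min_le_left _ _))
    · exact (min_le_left _ _).trans ((min_le_right _ _).trans (min_le_right _ _))
    · exact (min_le_right _ _).trans (min_le_left _ _)
    · have h1 : min (min (δ₁ / 2) (min r₀ η₀)) (min (1 / 4) (θ / (16 * K * L * cc + 1))) ≤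
          θ / (16 * K * L * cc + 1) := (min_le_right _ _).trans (min_le_right _ _)
      refine (mul_le_mul_of_nonneg_right h1 (by positivity)).trans ?_
      rw [div_mul_eq_mul_div, div_le_iff₀ (by positivity)]
      nlinarith
  have V1 : ∀ v : E n, ‖v‖ ≤ δ → v ∈ ball (0 : E n) δ₁ := fun v hv => by
    rw [mem_ball_zero_iff]
    exact lt_of_le_of_lt hv hδ1
  have hroom : ∀ z ∈ closedBall (0 : E n) 1, closedBall z δ ⊆ closedBall 0 2 := by
    intro z hz w hw
    rw [mem_closedBall_zero_iff] at hz ⊢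
    rw [mem_closedBall, dist_eq_norm] at hw
    have := norm_le_norm_add_norm_sub' w z
    linarith
  -- the mollified maps
  obtain ⟨M, hM⟩ : ∃ M : ι → E n → E m, M = fun j => ML δ (fun z => F (B j z)) := ⟨_, rfl⟩
  have hMs : ∀ j, ContDiff ℝ ∞ (M j) := fun j => by
    rw [hM]
    exact ML_contDiff hδ (hGc j)
  set F' : X → E m := fun x => ∑ j, ρ j x • M j (inv j x) with hF'
  have hρz : ∀ j x, x ∉ B j '' ball 0 1 → ∀ᶠ y in 𝓝 x, ρ j y = 0 := by
    intro j x hx
    have h1 : x ∉ tsupport (ρ j) := fun h => hx (hρt j h)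
    have h2 := notMem_tsupport_iff_eventuallyEq.1 h1
    exact h2
  have hρz' : ∀ j x, x ∉ B j '' ball 0 1 → ρ j x = 0 := fun j x hx =>
    (hρz j x hx).self_of_nhds
  refine ⟨F', δ, hδ, hδr.2, ?_, ?_⟩
  · -- smoothness in the charts
    intro i w hw
    have hw' := ball_subset_closedBall hw
    have hcont := (hLD i w hw').continuousAt
    refine ContDiffAt.sum fun j _ => ?_
    by_cases hx : B i w ∈ B j '' ball 0 1
    · refine (hρB i j w hw').smul ((hMs j).contDiffAt.comp w ?_)
      exact (hφLD i j w hw' (image_mono (ball_subset_ball (by norm_num)) hx)).contDiffAt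
    · have h1 : (fun y => ρ j (B i y) • M j (inv j (B i y))) =ᶠ[𝓝 w] fun _ => 0 := by
        filter_upwards [hcont.eventually (hρz j _ hx)] with y hy
        rw [hy, zero_smul]
      exact contDiffAt_const.congr_of_eventuallyEq h1
  intro i z hz
  have hz2 := s12 hz
  have hz2' := s12' hz
  have hcont := (hLD i z hz2').continuousAt
  -- the derivative
  set x := B i z with hxd
  set a : E m := F x with ha
  set P : ι → E n →L[ℝ] E n := fun j => fderiv ℝ (fun w => inv j (B i w)) z with hP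
  set D : ι → E n →L[ℝ] E m := fun j => fderiv ℝ (M j) (inv j x) with hDd
  set Q : ι → E n →L[ℝ] ℝ := fun j => fderiv ℝ (fun w => ρ j (B i w)) z with hQ
  have hdj : ∀ j, HasFDerivAt (fun y => ρ j (B i y) • (M j (inv j (B i y)) - a))
      (ρ j x • (D j).comp (P j) + (Q j).smulRight (M j (inv j x) - a)) z := by
    intro j
    by_cases hxj : x ∈ B j '' ball 0 1
    · have h1 : HasFDerivAt (fun w => inv j (B i w)) (P j) z :=
        ((hφLD i j z hz2' (image_mono (ball_subset_ball (by norm_num))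
          hxj)).contDiffAt.differentiableAt (by simp)).hasFDerivAt
      have h2 : HasFDerivAt (M j) (D j) (inv j (B i z)) :=
        ((hMs j).differentiable (by simp) _).hasFDerivAt
      have h3 : HasFDerivAt (fun y => M j (inv j (B i y)) - a) ((D j).comp (P j)) z :=
        (HasFDerivAt.comp z h2 h1).sub_const a
      have h4 : HasFDerivAt (fun w => ρ j (B i w)) (Q j) z :=
        ((hρB i j z hz2').differentiableAt (by simp)).hasFDerivAt
      exact h4.smul h3
    · have h0 : ∀ᶠ y in 𝓝 z, ρ j (B i y) = 0 := hcont.eventually (hρz j _ hxj)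
      have h1 : (fun y => ρ j (B i y) • (M j (inv j (B i y)) - a)) =ᶠ[𝓝 z] fun _ => 0 := by
        filter_upwards [h0] with y hy
        rw [hy, zero_smul]
      have h2 : Q j = 0 := by
        have : (fun w => ρ j (B i w)) =ᶠ[𝓝 z] fun _ => (0 : ℝ) := h0
        rw [hQ]
        simp only
        rw [this.fderiv_eq]
        simp
      have h3 : ρ j x = 0 := hρz' j _ hxj
      refine ((hasFDerivAt_const 0 z).congr_of_eventuallyEq h1).congr_fderiv ?_
      rw [h2, h3]
      ext
      simp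
  have hder : HasFDerivAt (fun y => F' (B i y))
      (∑ j, (ρ j x • (D j).comp (P j) + (Q j).smulRight (M j (inv j x) - a))) z := by
    have h1 := (HasFDerivAt.fun_sum (u := Finset.univ) fun j _ => hdj j).const_add a
    refine h1.congr_of_eventuallyEq (Eventually.of_forall fun y => ?_)
    simp only [hF', smul_sub, Finset.sum_sub_distrib, ← Finset.sum_smul, hρ1, one_smul]
    abel
  -- the linear map at the scale `δ`
  obtain ⟨Ti, li, hli, hTi, hTi'⟩ := hbox i z (by simpa using hz) δ hδ hδr.1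
  have hCk := Ck_nonneg n
  -- the other charts
  have gj : ∀ v : E n, ‖v‖ = 1 → ∀ j, ρ j x * ‖D j (P j v) - Ti v‖ ≤ ρ j x * (θ * ‖Ti v‖) ∧
        ‖Q j v‖ * ‖M j (inv j x) - a‖ ≤ |c i j| * (16 * K * L * δ * ‖Ti v‖) ∧
        ρ j x * ‖M j (inv j x) - a‖ ≤ ρ j x * (θ * ‖Ti v‖ * δ) := by
    intro v hv j
    set t := ‖Ti v‖ with ht
    have hlt : li ≤ t := by
      have := (hTi v).1
      rwa [hv, mul_one] at this
    have ht0 : 0 < t := lt_of_lt_of_le hli hlt
    by_cases hxj : x ∈ B j '' ball 0 1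
    swap
    · have h3 : ρ j x = 0 := hρz' j _ hxj
      have h2 : Q j = 0 := by
        have : (fun w => ρ j (B i w)) =ᶠ[𝓝 z] fun _ => (0 : ℝ) :=
          hcont.eventually (hρz j _ hxj)
        rw [hQ]
        simp only
        rw [this.fderiv_eq]
        simp
      rw [h3, h2]
      refine ⟨by simp, ?_, by simp⟩
      simp only [ContinuousLinearMap.zero_apply, norm_zero, zero_mul]
      positivity
    obtain ⟨w, hw, hwx⟩ := hxj
    have hw1 := ball_subset_closedBall hw
    have hwi : inv j x = w := by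
      rw [← hwx]
      exact hinv j w (s12' hw1)
    obtain ⟨Tj, lj, hlj, hTj, hTj'⟩ := hbox j w (by simpa using hw1) δ hδ hδr.1
    have hmem : z ∈ closedBall (0 : E n) 1 ∩ (B i) ⁻¹' (B j '' closedBall 0 1) :=
      ⟨hz, w, hw1, hwx⟩
    have hδL : δ / L ≤ δ := by
      rw [div_le_iff₀ hL0]
      nlinarith
    -- the derivative of the mollification
    have m1 : ‖D j - Tj‖ ≤ Ck n * (ep n L θ * lj) := by
      have := ML_deriv hδ (hGc j) (z := w) (M := ep n L θ * lj * δ) (by positivity)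
        (hroom w hw1) Tj (fun y hy => hTj' y hy)
      rw [mul_div_assoc, div_self hδ.ne', mul_one] at this
      simp only [hDd, hwi, hM]
      exact this
    have m2 : ‖M j (inv j x) - a‖ ≤ 2 * K * lj * δ := by
      rw [hwi, hM]
      have hax : a = F (B j w) := by rw [ha, hwx]
      rw [hax]
      refine ML_near hδ (hGc j) (by positivity) (hroom w hw1) fun y hy => ?_
      have e1 := hTj' y hy
      have e2 := (hTj (y - w)).2
      have e3 : F (B j y) - F (B j w) = (F (B j y) - F (B j w) - Tj (y - w)) + Tj (y - w) := by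
        abel
      rw [e3]
      refine (norm_add_le _ _).trans ?_
      have e4 : K * (lj * ‖y - w‖) ≤ K * (lj * δ) := by gcongr
      have e5 : ep n L θ * lj * δ ≤ 1 * lj * δ := by gcongr; linarith
      have e6 : 1 * lj * δ ≤ K * lj * δ := by gcongr
      linarith
    have m3 : ‖M j (inv j x) - a‖ ≤ ep n L θ * lj * δ := by
      rw [hwi, hM]
      have hax : a = F (B j w) := by rw [ha, hwx]
      rw [hax]
      exact ML_aff hδ (hGc j) (by positivity) (hroom w hw1) Tj hTj'
    have oth := other L K δ θ hL hK hδ hθ hθ4 (fun u => F (B i (z + u)) - F (B i z))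
      (fun u => inv j (B i (z + u)) - inv j (B i z)) Ti Tj (D j) (P j) li lj hli hlj
      (fun u => (hTi u).1) hTj
      (by
        intro u hu
        have := hTi' (z + u) (by rw [add_sub_cancel_left, hu]; exact hδL)
        rwa [add_sub_cancel_left] at this)
      (by
        intro u hu
        have huδ : ‖u‖ ≤ δ := hu.trans_le hδL
        obtain ⟨w', hw', hw'x⟩ := (hU u (V1 u huδ)).2 i j z hmem
        have e1 : inv j (B i (z + u)) = w' := by
          rw [← hw'x]
          exact hinv j w' (ball_subset_closedBall hw')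
        have e2 : inv j (B i z) = w := hwi
        have hzu : z + u ∈ closedBall (0 : E n) 2 := hroom z hz (by
          rw [mem_closedBall, dist_eq_norm, add_sub_cancel_left]
          exact huδ)
        have e3 := htr i j z hz2' (z + u) hzu w (s12' hw1) w' (ball_subset_closedBall hw')
          hwx.symm hw'x.symm
        rw [add_sub_cancel_left, hu] at e3
        have e4 : ‖w' - w‖ ≤ δ := e3.trans (by rw [mul_div_cancel₀ _ hL0.ne'])
        have e5 := hTj' w' e4
        simp only [e1, e2]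
        rw [hw'x, hwx] at e5
        exact e5)
      (by
        intro u hu
        exact (hU u (V1 u (hu.trans_le hδL))).1 i j z hmem)
      (by
        intro u hu
        have huδ : ‖u‖ ≤ δ := hu.trans_le hδL
        obtain ⟨w', hw', hw'x⟩ := (hU u (V1 u huδ)).2 i j z hmem
        have e1 : inv j (B i (z + u)) = w' := by
          rw [← hw'x]
          exact hinv j w' (ball_subset_closedBall hw')
        have e2 : inv j (B i z) = w := hwi
        have hzu : z + u ∈ closedBall (0 : E n) 2 := hroom z hz (by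
          rw [mem_closedBall, dist_eq_norm, add_sub_cancel_left]
          exact huδ)
        have e3 := htr i j z hz2' (z + u) hzu w (s12' hw1) w' (ball_subset_closedBall hw')
          hwx.symm hw'x.symm
        have e4 := htr j i w (s12' hw1) w' (ball_subset_closedBall hw') z hz2' (z + u) hzu
          hwx hw'x
        rw [add_sub_cancel_left] at e3 e4
        simp only [e1, e2]
        exact ⟨e3, e4⟩)
      m1 v hv
    refine ⟨mul_le_mul_of_nonneg_left oth.1 (hρ0 _ _), ?_, ?_⟩
    · have q1 : ‖Q j v‖ ≤ |c i j| := by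
        have := (Q j).le_opNorm v
        rw [hv, mul_one] at this
        exact this.trans ((hc i j z hz).trans (le_abs_self _))
      refine mul_le_mul q1 (m2.trans ?_) (norm_nonneg _) (abs_nonneg _)
      have := mul_le_mul_of_nonneg_left oth.2 (show 0 ≤ 2 * K * δ by positivity)
      calc 2 * K * lj * δ = 2 * K * δ * lj := by ring
        _ ≤ 2 * K * δ * (8 * L * t) := this
        _ = 16 * K * L * δ * t := by ring
    · refine mul_le_mul_of_nonneg_left (m3.trans ?_) (hρ0 _ _)
      have h18 := ep_le n hL hθ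
      have e1 : ep n L θ * lj ≤ ep n L θ * (8 * L * t) := mul_le_mul_of_nonneg_left oth.2 he0.le
      have e2 : ep n L θ * (8 * L * t) ≤ θ * t := by
        have e3 : L ≤ L ^ 2 := by nlinarith
        have e4 : ep n L θ * (8 * L) ≤ θ := by nlinarith
        calc ep n L θ * (8 * L * t) = ep n L θ * (8 * L) * t := by ring
          _ ≤ θ * t := mul_le_mul_of_nonneg_right e4 ht0.le
      exact mul_le_mul_of_nonneg_right (e1.trans e2) hδ.le
  refine ⟨Ti, li, hli, hTi, ?_, ?_, ?_⟩
  · intro q hq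
    refine (hTi' q hq).trans ?_
    gcongr
    linarith
  · intro v hv
    have h1 : F' x - a = ∑ j, ρ j x • (M j (inv j x) - a) := by
      simp only [hF', smul_sub, Finset.sum_sub_distrib, ← Finset.sum_smul, hρ1, one_smul]
    rw [h1]
    calc ‖∑ j, ρ j x • (M j (inv j x) - a)‖ ≤ ∑ j, ρ j x * (θ * ‖Ti v‖ * δ) := by
          refine norm_sum_le_of_le _ fun j _ => ?_
          rw [norm_smul, Real.norm_of_nonneg (hρ0 _ _)]
          exact (gj v hv j).2.2
      _ = θ * ‖Ti v‖ * δ := by rw [← Finset.sum_mul, hρ1, one_mul]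
  · intro v hv
    rw [hder.fderiv]
    set t := ‖Ti v‖ with ht
    have ht0 : 0 ≤ t := norm_nonneg _
    have hid : (∑ j, (ρ j x • (D j).comp (P j) + (Q j).smulRight (M j (inv j x) - a))) v - Ti v =
        ∑ j, ρ j x • (D j (P j v) - Ti v) + ∑ j, Q j v • (M j (inv j x) - a) := by
      simp only [ContinuousLinearMap.add_apply, ContinuousLinearMap.smul_apply,
        ContinuousLinearMap.sum_apply, ContinuousLinearMap.comp_apply,
        ContinuousLinearMap.smulRight_apply, smul_sub, Finset.sum_sub_distrib,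
        Finset.sum_add_distrib, ← Finset.sum_smul, hρ1, one_smul]
      abel
    rw [hid]
    have n2 : ‖∑ j, ρ j x • (D j (P j v) - Ti v)‖ ≤ θ * t := by
      calc ‖∑ j, ρ j x • (D j (P j v) - Ti v)‖ ≤ ∑ j, ρ j x * (θ * t) := by
            refine norm_sum_le_of_le _ fun j _ => ?_
            rw [norm_smul, Real.norm_of_nonneg (hρ0 _ _)]
            exact (gj v hv j).1
        _ = θ * t := by rw [← Finset.sum_mul, hρ1, one_mul]
    have n3 : ‖∑ j, Q j v • (M j (inv j x) - a)‖ ≤ θ * t := by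
      calc ‖∑ j, Q j v • (M j (inv j x) - a)‖ ≤ ∑ j, |c i j| * (16 * K * L * δ * t) := by
            refine norm_sum_le_of_le _ fun j _ => ?_
            rw [norm_smul]
            exact (gj v hv j).2.1
        _ = (∑ j, |c i j|) * (16 * K * L * δ * t) := by rw [Finset.sum_mul]
        _ ≤ cc * (16 * K * L * δ * t) := mul_le_mul_of_nonneg_right (hcs i) (by positivity)
        _ = (δ * (16 * K * L * cc)) * t := by ring
        _ ≤ θ * t := mul_le_mul_of_nonneg_right hδc ht0
    have := norm_add_le (∑ j, ρ j x • (D j (P j v) - Ti v)) (∑ j, Q j v • (M j (inv j x) - a))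
    linarith

end Pool.Agent.X169.NM
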