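import Pool.Agent.X169.NM.Retr
import Pool.Agent.Y522.Tools
import Pool.Agent.Y641.SH.Level

/-! Local coordinates on an embedded manifold. -/

set_option autoImplicit false

open Set Filter Topology Metric Function
open scoped Manifold ContDiff

noncomputable section

namespace Pool.Agent.X169.NM

open Pool.Agent.Y522

variable {n m : ℕ} {N : Type} [TopologicalSpace N] [ChartedSpace (E n) N] [IsManifold (𝓡 n) ∞ N]

theorem exists_param (x : N) : ∃ B : E n → N, B 0 = x ∧ LD n B 0 := by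
  obtain ⟨p, hp, hpx, -, -⟩ := (Pool.Agent.Y641.SH.LD_chart (n := n) x).exists_inverse
  refine ⟨fun z => p (z + chartAt (E n) x x), by simpa using hpx, ?_⟩
  refine LD.comp_fun (g := p) (f := fun z => z + chartAt (E n) x x) ?_ (LD_add_const _ _)
  rwa [zero_add]

omit [IsManifold (𝓡 n) ∞ N] in
theorem contDiffAt_comp {e : N → E m} (he : ContMDiff (𝓡 n) (𝓡 m) ∞ e) {B : E n → N} {z : E n}
    (hB : LD n B z) : ContDiffAt ℝ ∞ (fun z => e (B z)) z := by
  apply ContMDiffAt.contDiffAt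
  exact (he (B z)).comp z hB.contMDiffAt

theorem fderiv_inj {e : N → E m} (he : ContMDiff (𝓡 n) (𝓡 m) ∞ e) {B : E n → N} {z : E n}
    (hB : LD n B z) (hi : Injective (mfderiv (𝓡 n) (𝓡 m) e (B z))) :
    Injective (fderiv ℝ (fun z => e (B z)) z) := by
  have h1 : fderiv ℝ (e ∘ B) z = mfderiv (𝓡 n) (𝓡 m) (e ∘ B) z := mfderiv_eq_fderiv.symm
  have h2 : mfderiv (𝓡 n) (𝓡 m) (e ∘ B) z =
      (mfderiv (𝓡 n) (𝓡 m) e (B z)).comp (mfderiv (𝓡 n) (𝓡 n) B z) :=
    mfderiv_comp z ((he (B z)).mdifferentiableAt (by simp)) hB.mdifferentiableAt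
  have h3 : Injective (fderiv ℝ (e ∘ B) z) := by
    rw [h1, h2]
    intro a b hab
    exact hB.mfderiv_injective (hi hab)
  exact h3

theorem emb_coord (e : N → E m) (he : ContMDiff (𝓡 n) (𝓡 m) ∞ e) (x : N)
    (hi : Injective (mfderiv (𝓡 n) (𝓡 m) e x)) :
    ∃ A : E m →L[ℝ] E n, LD n (fun y => A (e y)) x := by
  obtain ⟨B, hB0, hB⟩ := exists_param (n := n) x
  rw [← hB0] at hi
  have hD := fderiv_inj he hB hi
  set D := fderiv ℝ (fun z => e (B z)) 0 with hDd
  obtain ⟨g, hg⟩ := D.toLinearMap.exists_leftInverse_of_injective (LinearMap.ker_eq_bot.2 hD)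
  set A : E m →L[ℝ] E n := LinearMap.toContinuousLinearMap g with hA
  have hev : ∀ᶠ z in 𝓝 (0 : E n), ContDiffAt ℝ ∞ (fun z => A (e (B z))) z := by
    filter_upwards [hB.eventually] with z hz
    exact A.contDiff.contDiffAt.comp z (contDiffAt_comp he hz)
  have hder : HasFDerivAt (fun z => A (e (B z))) (A.comp D) 0 := by
    have h1 : HasFDerivAt (fun z => e (B z)) D 0 :=
      ((contDiffAt_comp he hB).differentiableAt (by simp)).hasFDerivAt
    exact A.hasFDerivAt.comp 0 h1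
  have hAD : A.comp D = ContinuousLinearMap.id ℝ (E n) := by
    ext v : 1
    exact congrArg (fun f : E n →ₗ[ℝ] E n => f v) hg
  have hLD : LD n (fun z => A (e (B z))) 0 := by
    apply LD_of_bij hev
    rw [hder.fderiv, hAD]
    exact bijective_id
  refine ⟨A, ?_⟩
  obtain ⟨b, hb, hb0, -, hbr⟩ := hB.exists_inverse
  have h2 : LD n (fun y => A (e (B (b y)))) (B 0) := by
    refine LD.comp_fun (g := fun z => A (e (B z))) (f := b) ?_ hb
    rwa [hb0]
  rw [← hB0]
  refine h2.congr ?_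
  filter_upwards [hbr] with y hy
  rw [hy]

omit [IsManifold (𝓡 n) ∞ N] in
/-- the image of a smooth embedding is locally a smooth graph -/
theorem loc_of_coord (e : N → E m) (he : ContMDiff (𝓡 n) (𝓡 m) ∞ e) (hemb : IsEmbedding e) (x : N)
    (A : E m →L[ℝ] E n) (hA : LD n (fun y => A (e y)) x) : Loc n (range e) (e x) := by
  obtain ⟨Φ, hx, heq⟩ := hA
  obtain ⟨R, hR, hRe⟩ : ∃ R > 0, ∀ y, ‖e y - e x‖ < R → y ∈ Φ.source := by
    have h1 := Φ.open_source.mem_nhds hx
    rw [hemb.nhds_eq_comap, mem_comap] at h1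
    obtain ⟨t, ht, hts⟩ := h1
    obtain ⟨R, hR, hRt⟩ := Metric.mem_nhds_iff.1 ht
    exact ⟨R, hR, fun y hy => hts (hRt (by rwa [mem_ball, dist_eq_norm]))⟩
  refine ⟨A, fun w => e (Φ.symm w), R, Φ.target, hR, Φ.open_target, ?_, fun w _ => ⟨_, rfl⟩, ?_⟩
  · intro w hw
    have h2 : ContMDiffAt (𝓡 n) (𝓡 n) ∞ Φ.symm w :=
      (Φ.symm.contMDiffOn_toFun w hw).contMDiffAt (Φ.open_target.mem_nhds hw)
    have h3 : ContMDiffAt (𝓡 n) (𝓡 m) ∞ (fun w => e (Φ.symm w)) w := (he _).comp w h2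
    exact h3.contDiffAt.contDiffWithinAt
  · rintro _ ⟨y, rfl⟩ hy
    have hys := hRe y hy
    have h4 : A (e y) = Φ y := heq hys
    rw [h4]
    refine ⟨Φ.map_source hys, ?_⟩
    have h5 : Φ.symm (Φ y) = y := Φ.left_inv hys
    exact congrArg e h5

end Pool.Agent.X169.NM
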