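import Pool.Agent.X169.NM.Core
import Pool.Agent.X169.NM.Emb

/-! Local lemmas for the second stage of the smoothing. -/

set_option autoImplicit false

open Set Filter Topology Metric Function
open scoped Manifold ContDiff

noncomputable section

namespace Pool.Agent.X169.NM

open Pool.Agent.Y522

variable {n m : ℕ}

theorem exists_unit (hn : 0 < n) : ∃ v : E n, ‖v‖ = 1 :=
  ⟨EuclideanSpace.single ⟨0, hn⟩ (1 : ℝ), by simp⟩

theorem min_vec (hn : 0 < n) (T : E n →L[ℝ] E m) :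
    ∃ v₀, ‖v₀‖ = 1 ∧ ∀ v, ‖T v₀‖ * ‖v‖ ≤ ‖T v‖ := by
  obtain ⟨u, hu⟩ := exists_unit hn
  obtain ⟨v₀, hv₀, hmin⟩ := (isCompact_sphere (0 : E n) 1).exists_isMinOn
    ⟨u, by simpa using hu⟩ (f := fun v => ‖T v‖) (by fun_prop)
  refine ⟨v₀, by simpa using hv₀, ?_⟩
  refine low_of_small T 1 _ one_pos fun v hv => ?_
  rw [hv, mul_one]
  exact hmin (by simpa using hv)

theorem push (Λ θ δ : ℝ) (hΛ : 1 ≤ Λ) (hθ : 0 < θ) (hθ' : 72 * Λ * θ ≤ 1) (hδ : 0 < δ)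
    (T D : E n →L[ℝ] E m) (Q Q' : E m →L[ℝ] E m) (σ : ℝ)
    (hσ : ∀ v, σ * ‖v‖ ≤ ‖T v‖) (w : E n → E m)
    (h1 : ∀ v, ‖v‖ = 1 → ‖w v - T (δ • v)‖ ≤ θ * σ * δ)
    (h2 : ∀ v, ‖v‖ = 1 → ‖w v - Q (w v)‖ ≤ θ * ‖w v‖)
    (hQ : ‖Q‖ ≤ Λ) (hQ' : ‖Q' - Q‖ ≤ θ)
    (hD : ∀ v, ‖v‖ = 1 → ‖D v - T v‖ ≤ 2 * θ * ‖T v‖) (v : E n) (hv : ‖v‖ = 1) :
    ‖Q' (D v) - T v‖ ≤ 1 / 8 * ‖T v‖ := by
  set t := ‖T v‖ with ht
  have ht0 : 0 ≤ t := norm_nonneg _
  have hθ1 : θ ≤ 1 / 72 := by nlinarith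
  have hst : σ ≤ t := by
    have := hσ v
    rwa [hv, mul_one] at this
  have e0 : ‖T (δ • v)‖ = δ * t := by
    rw [map_smul, norm_smul, Real.norm_of_nonneg hδ.le]
  have e1 : ‖w v - T (δ • v)‖ ≤ θ * t * δ := (h1 v hv).trans (by gcongr)
  have e2 : ‖w v‖ ≤ (1 + θ) * (δ * t) := by
    have := norm_add_le (T (δ • v)) (w v - T (δ • v))
    rw [add_sub_cancel, e0] at this
    linarith
  have e3 : ‖Q (T (δ • v)) - T (δ • v)‖ ≤ Λ * (θ * t * δ) + θ * ((1 + θ) * (δ * t)) +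
      θ * t * δ := by
    have f1 : Q (T (δ • v)) - T (δ • v) = -(Q (w v - T (δ • v))) + -(w v - Q (w v)) +
        (w v - T (δ • v)) := by
      rw [map_sub]
      abel
    rw [f1]
    refine (norm_add₃_le).trans ?_
    rw [norm_neg, norm_neg]
    have f2 : ‖Q (w v - T (δ • v))‖ ≤ Λ * (θ * t * δ) :=
      (Q.le_opNorm _).trans (mul_le_mul hQ e1 (norm_nonneg _) (by linarith))
    have f3 : θ * ‖w v‖ ≤ θ * ((1 + θ) * (δ * t)) := mul_le_mul_of_nonneg_left e2 hθ.le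
    have f4 := h2 v hv
    linarith
  have e4 : ‖Q (T v) - T v‖ ≤ 4 * Λ * θ * t := by
    have f1 : Q (T (δ • v)) - T (δ • v) = δ • (Q (T v) - T v) := by
      rw [map_smul, map_smul, smul_sub]
    rw [f1, norm_smul, Real.norm_of_nonneg hδ.le] at e3
    have f2 : Λ * (θ * t * δ) + θ * ((1 + θ) * (δ * t)) + θ * t * δ ≤ δ * (4 * Λ * θ * t) := by
      have f3 : 0 ≤ θ * t * δ := by positivity
      have f4 : Λ + (1 + θ) + 1 ≤ 4 * Λ := by linarith
      calc Λ * (θ * t * δ) + θ * ((1 + θ) * (δ * t)) + θ * t * δ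
          = (Λ + (1 + θ) + 1) * (θ * t * δ) := by ring
        _ ≤ (4 * Λ) * (θ * t * δ) := mul_le_mul_of_nonneg_right f4 f3
        _ = δ * (4 * Λ * θ * t) := by ring
    exact le_of_mul_le_mul_left (e3.trans f2) hδ
  have e5 : ‖Q'‖ ≤ Λ + θ := by
    have := norm_add_le Q (Q' - Q)
    rw [add_sub_cancel] at this
    linarith
  have e6 : Q' (D v) - T v = Q' (D v - T v) + (Q' - Q) (T v) + (Q (T v) - T v) := by
    rw [map_sub, ContinuousLinearMap.sub_apply]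
    abel
  rw [e6]
  refine (norm_add₃_le).trans ?_
  have f1 : ‖Q' (D v - T v)‖ ≤ (Λ + θ) * (2 * θ * t) :=
    (Q'.le_opNorm _).trans (mul_le_mul e5 (hD v hv) (norm_nonneg _) (by linarith))
  have f2 : ‖(Q' - Q) (T v)‖ ≤ θ * t :=
    ((Q' - Q).le_opNorm _).trans (mul_le_mul_of_nonneg_right hQ' ht0)
  have f3 : (Λ + θ) * (2 * θ * t) + θ * t + 4 * Λ * θ * t ≤ 9 * Λ * θ * t := by
    have f4 : 0 ≤ θ * t := by positivity
    calc (Λ + θ) * (2 * θ * t) + θ * t + 4 * Λ * θ * t = (6 * Λ + 2 * θ + 1) * (θ * t) := by ring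
      _ ≤ (9 * Λ) * (θ * t) := mul_le_mul_of_nonneg_right (by linarith) f4
      _ = 9 * Λ * θ * t := by ring
  have f5 : 9 * Λ * θ * t ≤ 1 / 8 * t := mul_le_mul_of_nonneg_right (by linarith) ht0
  linarith

/-- comparison of the linear maps at two near points -/
theorem cmpT (θ δ : ℝ) (hθ : 0 < θ) (hθ' : θ ≤ 1 / 72) (hδ : 0 < δ) (Φ : E n → E m) (p q : E n)
    (Tp Tq : E n →L[ℝ] E m) (σp σq : ℝ)
    (hσp : ∀ v, σp * ‖v‖ ≤ ‖Tp v‖) (hσq : ∀ v, σq * ‖v‖ ≤ ‖Tq v‖)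
    (hp : ∀ z, ‖z - p‖ ≤ δ → ‖Φ z - Φ p - Tp (z - p)‖ ≤ θ * σp * δ)
    (hq : ∀ z, ‖z - q‖ ≤ δ → ‖Φ z - Φ q - Tq (z - q)‖ ≤ θ * σq * δ)
    (hpq : ‖q - p‖ ≤ δ / 2) (v : E n) (hv : ‖v‖ = 1) :
    ‖Tq v - Tp v‖ ≤ 8 * θ * ‖Tp v‖ := by
  set u : E n := (δ / 2) • v with hu
  have hun : ‖u‖ = δ / 2 := by
    rw [hu, norm_smul, hv, mul_one, Real.norm_of_nonneg (by linarith)]
  have e1 := hq (q + u) (by rw [add_sub_cancel_left]; linarith)
  have e2 := hp (q + u) (by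
    have := norm_add_le (q - p) u
    rw [show q + u - p = q - p + u by abel]
    linarith)
  have e3 := hp q (by linarith)
  rw [add_sub_cancel_left] at e1
  have e4 : Tq u - Tp u = -(Φ (q + u) - Φ q - Tq u) + (Φ (q + u) - Φ p - Tp (q + u - p)) +
      -(Φ q - Φ p - Tp (q - p)) := by
    rw [show q + u - p = q - p + u by abel, map_add]
    abel
  have e5 : ‖Tq u - Tp u‖ ≤ θ * σq * δ + 2 * (θ * σp * δ) := by
    rw [e4]
    refine (norm_add₃_le).trans ?_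
    rw [norm_neg, norm_neg]
    linarith
  have e6 : ‖Tq u - Tp u‖ = δ / 2 * ‖Tq v - Tp v‖ := by
    rw [hu, map_smul, map_smul, ← smul_sub, norm_smul, Real.norm_of_nonneg (by linarith)]
  rw [e6] at e5
  have e7 : ‖Tq v - Tp v‖ ≤ 2 * θ * σq + 4 * θ * σp := by
    have : δ / 2 * ‖Tq v - Tp v‖ ≤ δ / 2 * (2 * θ * σq + 4 * θ * σp) := by linarith
    exact le_of_mul_le_mul_left this (by linarith)
  have e8 : σp ≤ ‖Tp v‖ := by
    have := hσp v
    rwa [hv, mul_one] at this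
  have e9 : σq ≤ ‖Tq v‖ := by
    have := hσq v
    rwa [hv, mul_one] at this
  have e10 : ‖Tq v‖ ≤ ‖Tp v‖ + ‖Tq v - Tp v‖ := by
    have := norm_add_le (Tp v) (Tq v - Tp v)
    rwa [add_sub_cancel] at this
  have ht0 : 0 ≤ ‖Tp v‖ := norm_nonneg _
  have e12 : 4 * θ * σp ≤ 4 * θ * ‖Tp v‖ := by gcongr
  have e11 : σq ≤ 2 * ‖Tp v‖ := by
    by_contra hcon
    push Not at hcon
    have hσq0 : 0 < σq := by linarith
    have g1 : 2 * θ * σq ≤ 2 * (1 / 72) * σq := by gcongr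
    have g2 : 4 * θ * ‖Tp v‖ ≤ 4 * (1 / 72) * ‖Tp v‖ := by gcongr
    linarith
  have e13 : 2 * θ * σq ≤ 2 * θ * (2 * ‖Tp v‖) := by gcongr
  linarith

/-- injectivity at small distances -/
theorem near_inj (θ δ : ℝ) (hθ : 0 < θ) (hθ' : θ ≤ 1 / 80) (hδ : 0 < δ) (Φ Ψ : E n → E m)
    (s : Set (E n)) (hs : Convex ℝ s) (D T : E n → E n →L[ℝ] E m) (σ : E n → ℝ)
    (hσ0 : ∀ z ∈ s, 0 < σ z) (hσ : ∀ z ∈ s, ∀ v, σ z * ‖v‖ ≤ ‖T z v‖)
    (hT : ∀ z ∈ s, ∀ q, ‖q - z‖ ≤ δ → ‖Φ q - Φ z - T z (q - z)‖ ≤ θ * σ z * δ)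
    (hD : ∀ z ∈ s, HasFDerivAt Ψ (D z) z)
    (hDT : ∀ z ∈ s, ∀ v, ‖v‖ = 1 → ‖D z v - T z v‖ ≤ 1 / 8 * ‖T z v‖)
    (p p' : E n) (hp : p ∈ s) (hp' : p' ∈ s) (hpp : ‖p' - p‖ ≤ δ / 2) (he : Ψ p' = Ψ p) :
    p' = p := by
  by_contra hne
  have hr : 0 < ‖p' - p‖ := norm_pos_iff.2 (sub_ne_zero.2 hne)
  set r := ‖p' - p‖ with hrd
  set v : E n := r⁻¹ • (p' - p) with hv
  have hvn : ‖v‖ = 1 := by
    rw [hv, norm_smul, norm_inv, Real.norm_of_nonneg hr.le, ← hrd, inv_mul_cancel₀ hr.ne']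
  have hrv : p' - p = r • v := by
    rw [hv, smul_inv_smul₀ hr.ne']
  set t := ‖T p v‖ with ht
  have ht0 : 0 < t := by
    have := hσ p hp v
    rw [hvn, mul_one] at this
    exact lt_of_lt_of_le (hσ0 p hp) this
  have hseg : ∀ a ∈ Icc (0 : ℝ) 1, p + a • (p' - p) ∈ s := by
    intro a ha
    have := hs hp hp' (sub_nonneg.2 ha.2) ha.1 (by ring)
    have e : p + a • (p' - p) = (1 - a) • p + a • p' := by
      rw [smul_sub, sub_smul, one_smul]
      abel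
    rwa [e]
  have hmv := norm_image_sub_le_of_norm_deriv_le_segment_01'
    (f := fun a : ℝ => Ψ (p + a • (p' - p)) - a • T p (p' - p))
    (f' := fun a => D (p + a • (p' - p)) (p' - p) - T p (p' - p)) (C := 1 / 4 * (r * t)) ?_ ?_
  · simp only [one_smul, zero_smul, add_zero, sub_zero, add_sub_cancel] at hmv
    rw [he, sub_sub_cancel_left, norm_neg, hrv, map_smul, norm_smul,
      Real.norm_of_nonneg hr.le] at hmv
    have : 0 < r * t := by positivity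
    linarith
  · intro a ha
    apply HasDerivAt.hasDerivWithinAt
    have h1 : HasDerivAt (fun a : ℝ => p + a • (p' - p)) (p' - p) a := by
      have := ((hasDerivAt_id a).smul_const (p' - p)).const_add p
      simpa using this
    have h2 := (hD _ (hseg a ha)).comp_hasDerivAt a h1
    have h3 : HasDerivAt (fun a : ℝ => a • T p (p' - p)) (T p (p' - p)) a := by
      have := (hasDerivAt_id a).smul_const (T p (p' - p))
      simpa using this
    exact h2.sub h3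
  · intro a ha
    have ha' : a ∈ Icc (0 : ℝ) 1 := ⟨ha.1, ha.2.le⟩
    set q := p + a • (p' - p) with hq
    have hqs : q ∈ s := hseg a ha'
    have hqp : ‖q - p‖ ≤ δ / 2 := by
      rw [hq, add_sub_cancel_left, norm_smul, Real.norm_of_nonneg ha.1]
      nlinarith [ha.2, norm_nonneg (p' - p)]
    have e1 := cmpT θ δ hθ (by linarith) hδ Φ p q (T p) (T q) (σ p) (σ q) (hσ p hp) (hσ q hqs)
      (hT p hp) (hT q hqs) hqp v hvn
    have e2 := hDT q hqs v hvn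
    have e3 : ‖T q v‖ ≤ t + ‖T q v - T p v‖ := by
      have := norm_add_le (T p v) (T q v - T p v)
      rwa [add_sub_cancel] at this
    have e4 : ‖D q v - T p v‖ ≤ ‖D q v - T q v‖ + ‖T q v - T p v‖ := by
      have := norm_add_le (D q v - T q v) (T q v - T p v)
      rwa [sub_add_sub_cancel] at this
    have e5 : 8 * θ * t ≤ 1 / 10 * t := by
      apply mul_le_mul_of_nonneg_right _ ht0.le
      linarith
    have e6 : ‖D q v - T p v‖ ≤ 1 / 4 * t := by linarith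
    change ‖D q (p' - p) - T p (p' - p)‖ ≤ _
    have e7 : D q (p' - p) - T p (p' - p) = r • (D q v - T p v) := by
      rw [hrv, (D q).map_smul r v, (T p).map_smul r v, ← smul_sub]
    rw [e7, norm_smul, Real.norm_of_nonneg hr.le]
    have := mul_le_mul_of_nonneg_left e6 hr.le
    linarith

/-- injectivity at large distances, inside one chart -/
theorem far_inj {X : Type} [TopologicalSpace X] (Λ θ δ : ℝ) (hΛ : 1 ≤ Λ) (hθ : 0 < θ)
    (hθ' : 80 * Λ * θ ≤ 1) (hδ : 0 < δ)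
    (F : X → E m) (hF : IsEmbedding F) (P : E m → E m) (ρ₁ : ℝ)
    (hPc : ∀ y ∈ range F, ∀ w : E m, ‖w‖ < ρ₁ → ContinuousAt P (y + w))
    (hPS : ∀ y ∈ range F, ∀ w : E m, ‖w‖ < ρ₁ → P (y + w) ∈ range F)
    (hPi : ∀ y ∈ range F, P y = y) (hPn : ∀ y ∈ range F, ‖fderiv ℝ P y‖ ≤ Λ)
    (hPd : ∀ y ∈ range F, ∀ w : E m, ‖w‖ < ρ₁ → ‖P (y + w) - P y - fderiv ℝ P y w‖ ≤ θ * ‖w‖)
    (B : E n → X) (p p' : E n) (hBi : InjOn B (closedBall 0 2)) (hp : closedBall p (δ / 2) ⊆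
      closedBall 0 2) (hp' : p' ∈ closedBall (0 : E n) 2)
    (hBo : IsOpen (B '' ball p (δ / 2))) (hBc : IsClosed (B '' closedBall p (δ / 2)))
    (T : E n →L[ℝ] E m) (σ σ' : ℝ) (hσ0 : 0 < σ) (hσσ : σ' ≤ σ) (hσ : ∀ v, σ * ‖v‖ ≤ ‖T v‖)
    (hT : ∀ q, ‖q - p‖ ≤ δ → ‖F (B q) - F (B p) - T (q - p)‖ ≤ θ * σ * δ)
    (f f' : E m) (hf : ‖f - F (B p)‖ ≤ θ * σ * δ) (hf' : ‖f' - F (B p')‖ ≤ θ * σ' * δ)
    (hfρ : ‖f - F (B p)‖ < ρ₁) (hfρ' : ‖f' - F (B p')‖ < ρ₁)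
    (hffρ : ‖F (B p') - F (B p)‖ < ρ₁)
    (he : P f' = P f) : ‖p' - p‖ ≤ δ / 2 := by
  classical
  by_contra hfar
  push Not at hfar
  have hΛθ : Λ * θ ≤ 1 / 80 := by linarith
  have hθ1 : θ ≤ 1 / 80 := by nlinarith
  have hPF : ∀ y ∈ range F, ∀ g : E m, ‖g - y‖ < ρ₁ → ‖P g - y‖ ≤ 2 * Λ * ‖g - y‖ := by
    intro y hy g hg
    have h1 := hPd y hy (g - y) hg
    rw [add_sub_cancel, hPi y hy] at h1
    have h2 : ‖fderiv ℝ P y (g - y)‖ ≤ Λ * ‖g - y‖ :=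
      ((fderiv ℝ P y).le_opNorm _).trans (mul_le_mul_of_nonneg_right (hPn y hy) (norm_nonneg _))
    have h3 : ‖P g - y‖ ≤ ‖P g - y - fderiv ℝ P y (g - y)‖ + ‖fderiv ℝ P y (g - y)‖ := by
      have := norm_add_le (P g - y - fderiv ℝ P y (g - y)) (fderiv ℝ P y (g - y))
      rwa [sub_add_cancel] at this
    have h4 : θ * ‖g - y‖ ≤ Λ * ‖g - y‖ := by
      apply mul_le_mul_of_nonneg_right _ (norm_nonneg _)
      linarith
    linarith
  set y := F (B p) with hy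
  have hyr : y ∈ range F := mem_range_self _
  set w := F (B p') - y with hw
  have hσδ : 0 < σ * δ := by positivity
  have hwn : ‖w‖ ≤ 1 / 20 * (σ * δ) := by
    have h1 := hPF y hyr f hfρ
    have h2 := hPF (F (B p')) (mem_range_self _) f' hfρ'
    have h3 : ‖w‖ ≤ ‖P f' - F (B p')‖ + ‖P f - y‖ := by
      have e : w = -(P f' - F (B p')) + (P f - y) := by
        rw [he, hw]
        abel
      rw [e]
      refine (norm_add_le _ _).trans ?_
      rw [norm_neg]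
    have h4 : 2 * Λ * ‖f - y‖ ≤ 2 * Λ * (θ * σ * δ) := by gcongr
    have h5 : 2 * Λ * ‖f' - F (B p')‖ ≤ 2 * Λ * (θ * σ * δ) := by
      refine mul_le_mul_of_nonneg_left (hf'.trans ?_) (by linarith)
      gcongr
    have h6 : 2 * Λ * (θ * σ * δ) ≤ 1 / 40 * (σ * δ) := by
      have : 2 * Λ * (θ * σ * δ) = 2 * (Λ * θ) * (σ * δ) := by ring
      rw [this]
      exact mul_le_mul_of_nonneg_right (by linarith) hσδ.le
    linarith
  have hwy : y + w = F (B p') := by rw [hw]; abel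
  have hdw : ‖w - fderiv ℝ P y w‖ ≤ θ * ‖w‖ := by
    have h1 := hPd y hyr w hffρ
    rw [hwy, hPi _ (mem_range_self _), hPi y hyr] at h1
    exact h1
  -- the path
  have hsw : ∀ a ∈ Icc (0 : ℝ) 1, ‖a • w‖ ≤ ‖w‖ := by
    intro a ha
    rw [norm_smul, Real.norm_of_nonneg ha.1]
    nlinarith [ha.2, norm_nonneg w]
  have hcr : ∀ a ∈ Icc (0 : ℝ) 1, ∃ x, F x = P (y + a • w) := fun a ha =>
    hPS y hyr _ (lt_of_le_of_lt (hsw a ha) hffρ)
  have hcn : ∀ a ∈ Icc (0 : ℝ) 1, ‖P (y + a • w) - y‖ ≤ 1 / 10 * (σ * δ) := by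
    intro a ha
    have h1 := hPd y hyr (a • w) (lt_of_le_of_lt (hsw a ha) hffρ)
    rw [hPi y hyr, map_smul] at h1
    have h2 : ‖fderiv ℝ P y w‖ ≤ (1 + θ) * ‖w‖ := by
      have := norm_sub_le w (w - fderiv ℝ P y w)
      rw [sub_sub_cancel] at this
      linarith
    have h3 : ‖a • fderiv ℝ P y w‖ ≤ (1 + θ) * ‖w‖ := by
      rw [norm_smul, Real.norm_of_nonneg ha.1]
      nlinarith [ha.2, norm_nonneg (fderiv ℝ P y w)]
    have h4 : ‖P (y + a • w) - y‖ ≤ ‖P (y + a • w) - y - a • fderiv ℝ P y w‖ +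
        ‖a • fderiv ℝ P y w‖ := by
      have := norm_add_le (P (y + a • w) - y - a • fderiv ℝ P y w) (a • fderiv ℝ P y w)
      rwa [sub_add_cancel] at this
    have h5 : θ * ‖a • w‖ ≤ θ * ‖w‖ := mul_le_mul_of_nonneg_left (hsw a ha) hθ.le
    nlinarith [norm_nonneg w]
  have : ∃ γ : ℝ → X, ∀ a ∈ Icc (0 : ℝ) 1, F (γ a) = P (y + a • w) :=
    ⟨fun a => if h : ∃ x, F x = P (y + a • w) then h.choose else B p, fun a ha => by
      simp only
      rw [dif_pos (hcr a ha)]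
      exact (hcr a ha).choose_spec⟩
  obtain ⟨γ, hγ⟩ := this
  have hγc : ContinuousOn γ (Icc 0 1) := by
    rw [hF.isInducing.continuousOn_iff]
    have h1 : ContinuousOn (fun a : ℝ => P (y + a • w)) (Icc 0 1) := by
      intro a ha
      have h2 := hPc y hyr (a • w) (lt_of_le_of_lt (hsw a ha) hffρ)
      have h3 : ContinuousAt (fun a : ℝ => y + a • w) a := by fun_prop
      exact (ContinuousAt.comp (f := fun a : ℝ => y + a • w) h2 h3).continuousWithinAt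
    exact h1.congr fun a ha => hγ a ha
  have hpre : IsPreconnected (γ '' Icc 0 1) := isPreconnected_Icc.image γ hγc
  have hsub : γ '' Icc 0 1 ⊆ B '' ball p (δ / 2) := by
    refine hpre.subset_left_of_subset_union hBo hBc.isOpen_compl ?_ ?_ ?_
    · rw [disjoint_compl_right_iff_subset]
      exact image_mono ball_subset_closedBall
    · rintro _ ⟨a, ha, rfl⟩
      by_cases hm : γ a ∈ B '' closedBall p (δ / 2)
      · left
        obtain ⟨q, hq, hqa⟩ := hm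
        refine ⟨q, ?_, hqa⟩
        rw [mem_closedBall, dist_eq_norm] at hq
        rw [mem_ball, dist_eq_norm]
        refine lt_of_le_of_ne hq fun heq => ?_
        have h1 := hT q (by linarith)
        have h2 := hσ (q - p)
        rw [heq] at h2
        have h3 : F (B q) = P (y + a • w) := by rw [hqa, hγ a ha]
        have h4 := hcn a ha
        rw [← h3] at h4
        have h5 : ‖T (q - p)‖ ≤ ‖F (B q) - y‖ + ‖F (B q) - y - T (q - p)‖ := by
          have := norm_sub_le (F (B q) - y) (F (B q) - y - T (q - p))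
          rwa [sub_sub_cancel] at this
        have h6 : θ * σ * δ ≤ 1 / 80 * (σ * δ) := by
          rw [mul_assoc]
          exact mul_le_mul_of_nonneg_right hθ1 hσδ.le
        linarith
      · right
        exact hm
    · refine ⟨γ 0, ⟨0, by simp, rfl⟩, p, mem_ball_self (by linarith), ?_⟩
      apply hF.injective
      rw [hγ 0 (by simp), zero_smul, add_zero, hPi y hyr]
  obtain ⟨q, hq, hq1⟩ := hsub ⟨1, by simp, rfl⟩
  have h1 : F (γ 1) = F (B p') := by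
    rw [hγ 1 (by simp), one_smul, hwy, hPi _ (mem_range_self _)]
  have h2 : B q = B p' := by rw [hq1, hF.injective h1]
  have h3 : q = p' := hBi (hp (ball_subset_closedBall hq)) hp' h2
  rw [h3, mem_ball, dist_eq_norm] at hq
  linarith

end Pool.Agent.X169.NM
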