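import Pool.Agent.X169.NL.Moll

/-! Mollification of a map with values in another Euclidean space. -/

set_option autoImplicit false

open Set Filter Topology Metric Function MeasureTheory
open scoped Manifold ContDiff Convolution

noncomputable section

namespace Pool.Agent.X169.NM

open Pool.Agent.Y522 ContinuousLinearMap
open Pool.Agent.X169.NL (kd Ck Ck_nonneg kd_contDiff kd_support kd_compact kd_nonneg kd_integral kd_even kd_fderiv kd_var)

variable {n m : ℕ}

/-- the mollification -/
def ML (δ : ℝ) (G : E n → E m) : E n → E m :=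
  (kd n δ) ⋆[lsmul ℝ ℝ, volume] (indicator (closedBall 0 2) G)

theorem locInt {G : E n → E m} (hG : ContinuousOn G (closedBall 0 2)) :
    Integrable (indicator (closedBall (0 : E n) 2) G) volume := by
  rw [integrable_indicator_iff measurableSet_closedBall]
  exact hG.integrableOn_compact (isCompact_closedBall _ _)

theorem ML_contDiff {δ : ℝ} (hδ : 0 < δ) {G : E n → E m} (hG : ContinuousOn G (closedBall 0 2)) :
    ContDiff ℝ ∞ (ML δ G) :=
  (kd_compact hδ).contDiff_convolution_left _ (kd_contDiff δ) (locInt hG).locallyIntegrable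

theorem ML_near {δ : ℝ} (hδ : 0 < δ) {G : E n → E m} (hG : ContinuousOn G (closedBall 0 2))
    {z : E n} {c : E m} {M : ℝ} (hM : 0 ≤ M) (hz : closedBall z δ ⊆ closedBall 0 2)
    (h : ∀ y, ‖y - z‖ ≤ δ → ‖G y - c‖ ≤ M) : ‖ML δ G z - c‖ ≤ M := by
  rw [← dist_eq_norm]
  refine dist_convolution_le hM (kd_support hδ) (kd_nonneg hδ) (kd_integral hδ)
    (locInt hG).aestronglyMeasurable ?_
  intro y hy
  rw [indicator_of_mem (hz (ball_subset_closedBall hy)), dist_eq_norm]
  exact h y (by rw [← dist_eq_norm]; exact (mem_ball.1 hy).le)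

theorem ML_deriv {δ : ℝ} (hδ : 0 < δ) {G : E n → E m} (hG : ContinuousOn G (closedBall 0 2))
    {z : E n} {M : ℝ} (hM : 0 ≤ M) (hz : closedBall z δ ⊆ closedBall 0 2) (T : E n →L[ℝ] E m)
    (h : ∀ y, ‖y - z‖ ≤ δ → ‖G y - G z - T (y - z)‖ ≤ M) :
    ‖fderiv ℝ (ML δ G) z - T‖ ≤ Ck n * (M / δ) := by
  have hkc := kd_compact (n := n) hδ
  have hkd : ContDiff ℝ ∞ (kd n δ) := kd_contDiff δ
  have hkcont : Continuous (kd n δ) := hkd.continuous
  set g : E n → E m := indicator (closedBall 0 2) G with hg
  set l : E n → E m := fun y => G z + T (y - z) with hl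
  have hlc : Continuous l := by fun_prop
  have hgi : LocallyIntegrable g volume := (locInt hG).locallyIntegrable
  have hli : LocallyIntegrable l volume := hlc.locallyIntegrable
  set R : E n → E m := g - l with hR
  have hRi : LocallyIntegrable R volume := hgi.sub hli
  -- the convolution with the affine function
  have hconl : (kd n δ) ⋆[lsmul ℝ ℝ, volume] l = l := by
    funext w
    rw [convolution_def]
    simp only [lsmul_apply]
    have h1 : ∀ t : E n, kd n δ t • l (w - t) = kd n δ t • l w - T (kd n δ t • t) := by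
      intro t
      simp only [hl, map_smul]
      rw [← smul_sub]
      congr 1
      rw [show w - t - z = (w - z) - t by abel, map_sub]
      abel
    have i1 : Integrable (fun t : E n => kd n δ t • l w) volume :=
      (hkcont.integrable_of_hasCompactSupport hkc).smul_const _
    have i2 : Integrable (fun t : E n => kd n δ t • t) volume := by
      apply Continuous.integrable_of_hasCompactSupport (by fun_prop)
      exact hkc.smul_right
    rw [integral_congr_ae (Eventually.of_forall h1), integral_sub i1 (T.integrable_comp i2),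
      integral_smul_const, kd_integral hδ, one_smul, T.integral_comp_comm i2]
    have h2 : ∫ t : E n, kd n δ t • t = 0 := by
      have h3 : ∫ t : E n, kd n δ t • t = ∫ t : E n, kd n δ (-t) • (-t) :=
        (integral_neg_eq_self (fun t : E n => kd n δ t • t) volume).symm
      simp only [kd_even, smul_neg] at h3
      rw [integral_neg] at h3
      have h4 : (2 : ℝ) • ∫ t : E n, kd n δ t • t = 0 := by
        rw [two_smul]
        nth_rewrite 1 [h3]
        exact neg_add_cancel _
      exact (smul_eq_zero.1 h4).resolve_left two_ne_zero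
    rw [h2, map_zero, sub_zero]
  have hsum : ML δ G = l + (kd n δ) ⋆[lsmul ℝ ℝ, volume] R := by
    have h1 : g = l + R := by rw [hR]; abel
    unfold ML
    rw [← hg]
    conv_lhs => rw [h1]
    rw [ConvolutionExists.distrib_add, hconl]
    · exact hkc.convolutionExists_left _ hkcont hli
    · exact hkc.convolutionExists_left _ hkcont hRi
  have hdR := hkc.hasFDerivAt_convolution_left (lsmul ℝ ℝ : ℝ →L[ℝ] E m →L[ℝ] E m)
    (hkd.of_le (by simp)) hRi z
  have hdl : HasFDerivAt l T z := by
    have h1 : HasFDerivAt (fun y : E n => y - z) (ContinuousLinearMap.id ℝ (E n)) z :=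
      (hasFDerivAt_id z).sub_const z
    have h2 := HasFDerivAt.comp (f := fun y : E n => y - z) z (T.hasFDerivAt (x := z - z)) h1
    have h3 := h2.const_add (G z)
    rw [ContinuousLinearMap.comp_id] at h3
    exact h3
  have hd := (hdl.add hdR).fderiv
  rw [← hsum] at hd
  rw [hd, add_sub_cancel_left, convolution_def]
  have key : ∀ t : E n, ‖((lsmul ℝ ℝ : ℝ →L[ℝ] E m →L[ℝ] E m).precompL (E n))
      (fderiv ℝ (kd n δ) t) (R (z - t))‖ ≤ ‖fderiv ℝ (kd n δ) t‖ * M := by
    intro t
    by_cases ht : fderiv ℝ (kd n δ) t = 0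
    · rw [ht]
      simp
    have ht' : ‖t‖ ≤ δ := by
      by_contra hcon
      push Not at hcon
      apply ht
      have : kd n δ =ᶠ[𝓝 t] fun _ => 0 := by
        have h1 : {y : E n | δ < ‖y‖} ∈ 𝓝 t :=
          (isOpen_lt continuous_const continuous_norm).mem_nhds hcon
        filter_upwards [h1] with y hy
        by_contra h
        have := mem_ball_zero_iff.1 (kd_support hδ h)
        exact absurd hy (not_lt.2 this.le)
      rw [this.fderiv_eq]
      simp
    have hRb : ‖R (z - t)‖ ≤ M := by
      have h1 : z - t ∈ closedBall (0 : E n) 2 := hz (by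
        rw [mem_closedBall, dist_eq_norm, sub_sub_cancel_left, norm_neg]
        exact ht')
      have h2 := h (z - t) (by rw [sub_sub_cancel_left, norm_neg]; exact ht')
      have h3 : R (z - t) = G (z - t) - G z - T (z - t - z) := by
        rw [hR, Pi.sub_apply, hg, indicator_of_mem h1, hl]
        exact (sub_sub _ _ _).symm
      rw [h3]
      exact h2
    refine ContinuousLinearMap.opNorm_le_bound _ (by positivity) fun w => ?_
    rw [ContinuousLinearMap.precompL_apply, lsmul_apply, norm_smul]
    calc ‖(fderiv ℝ (kd n δ) t) w‖ * ‖R (z - t)‖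
        ≤ (‖fderiv ℝ (kd n δ) t‖ * ‖w‖) * M := by
          apply mul_le_mul (ContinuousLinearMap.le_opNorm _ _) hRb (norm_nonneg _) (by positivity)
      _ = ‖fderiv ℝ (kd n δ) t‖ * M * ‖w‖ := by ring
  have hfi : Integrable (fun t : E n => ‖fderiv ℝ (kd n δ) t‖) volume := by
    have h1 : Continuous (fderiv ℝ (kd n δ)) := hkd.continuous_fderiv (by simp)
    exact (h1.integrable_of_hasCompactSupport (hkc.fderiv ℝ)).norm
  calc norm (∫ t, ((lsmul ℝ ℝ : ℝ →L[ℝ] E m →L[ℝ] E m).precompL (E n))
      (fderiv ℝ (kd n δ) t) (R (z - t)))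
      ≤ ∫ t, ‖fderiv ℝ (kd n δ) t‖ * M :=
        norm_integral_le_of_norm_le (hfi.mul_const M) (Eventually.of_forall key)
    _ = (∫ t, ‖fderiv ℝ (kd n δ) t‖) * M := integral_mul_const _ _
    _ = Ck n * (M / δ) := by
        rw [kd_var hδ]
        field_simp

theorem kd_mean {δ : ℝ} : ∫ t : E n, kd n δ t • t = 0 := by
  have h3 : ∫ t : E n, kd n δ t • t = ∫ t : E n, kd n δ (-t) • (-t) :=
    (integral_neg_eq_self (fun t : E n => kd n δ t • t) volume).symm
  simp only [kd_even, smul_neg] at h3
  rw [integral_neg] at h3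
  have h4 : (2 : ℝ) • ∫ t : E n, kd n δ t • t = 0 := by
    rw [two_smul]
    nth_rewrite 1 [h3]
    exact neg_add_cancel _
  exact (smul_eq_zero.1 h4).resolve_left two_ne_zero

/-- the mollification at the center -/
theorem ML_aff {δ : ℝ} (hδ : 0 < δ) {G : E n → E m} (hG : ContinuousOn G (closedBall 0 2))
    {z : E n} {M : ℝ} (hM : 0 ≤ M) (hz : closedBall z δ ⊆ closedBall 0 2) (T : E n →L[ℝ] E m)
    (h : ∀ y, ‖y - z‖ ≤ δ → ‖G y - G z - T (y - z)‖ ≤ M) : ‖ML δ G z - G z‖ ≤ M := by
  set G2 : E n → E m := fun y => G y - T (y - z) with hG2d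
  have hG2 : ContinuousOn G2 (closedBall 0 2) := hG.sub (by fun_prop)
  have hkc := kd_compact (n := n) hδ
  have hkcont : Continuous (kd n δ) := (kd_contDiff δ).continuous
  have i2 : Integrable (fun t : E n => kd n δ t • t) volume := by
    apply Continuous.integrable_of_hasCompactSupport (by fun_prop)
    exact hkc.smul_right
  have h1 : ML δ G2 z = ML δ G z := by
    unfold ML
    rw [convolution_def, convolution_def]
    have e1 : ∀ t : E n, (lsmul ℝ ℝ : ℝ →L[ℝ] E m →L[ℝ] E m) (kd n δ t)
        (indicator (closedBall 0 2) G2 (z - t)) =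
        (lsmul ℝ ℝ : ℝ →L[ℝ] E m →L[ℝ] E m) (kd n δ t)
        (indicator (closedBall 0 2) G (z - t)) + T (kd n δ t • t) := by
      intro t
      by_cases ht : kd n δ t = 0
      · simp [ht]
      have ht' : ‖t‖ ≤ δ := (mem_ball_zero_iff.1 (kd_support hδ ht)).le
      have hm : z - t ∈ closedBall (0 : E n) 2 := hz (by
        rw [mem_closedBall, dist_eq_norm, sub_sub_cancel_left, norm_neg]
        exact ht')
      rw [indicator_of_mem hm, indicator_of_mem hm, lsmul_apply, lsmul_apply, hG2d]
      simp only [sub_sub_cancel_left, map_neg, sub_neg_eq_add, smul_add, map_smul]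
    simp only [e1]
    have i1 : Integrable (fun t : E n => (lsmul ℝ ℝ : ℝ →L[ℝ] E m →L[ℝ] E m) (kd n δ t)
        (indicator (closedBall 0 2) G (z - t))) volume :=
      hkc.convolutionExists_left (lsmul ℝ ℝ : ℝ →L[ℝ] E m →L[ℝ] E m) hkcont
        (locInt hG).locallyIntegrable z
    rw [integral_add i1 (T.integrable_comp i2), T.integral_comp_comm i2, kd_mean, map_zero,
      add_zero]
  rw [← h1]
  refine ML_near hδ hG2 hM hz fun y hy => ?_
  have := h y hy
  rw [hG2d]
  simp only
  rwa [sub_right_comm] at this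

end Pool.Agent.X169.NM
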