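import Pool.Agent.Y522.Sch

/-! A smooth retraction of a neighbourhood of a compact embedded manifold. -/

set_option autoImplicit false

open Set Filter Topology Metric Function
open scoped Manifold ContDiff

noncomputable section

namespace Pool.Agent.X169.NM

open Pool.Agent.Y522

/-- `S` is locally, near `y₀`, the graph of a smooth map over a linear projection -/
def Loc (n : ℕ) {m : ℕ} (S : Set (E m)) (y₀ : E m) : Prop :=
  ∃ (A : E m →L[ℝ] E n) (κ : E n → E m) (R : ℝ) (O : Set (E n)), 0 < R ∧ IsOpen O ∧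
    ContDiffOn ℝ ∞ κ O ∧ (∀ w ∈ O, κ w ∈ S) ∧ ∀ y ∈ S, ‖y - y₀‖ < R → A y ∈ O ∧ κ (A y) = y

/-- one step of the construction -/
theorem retr_step {n m : ℕ} (S : Set (E m)) (y₀ : E m) (A : E m →L[ℝ] E n) (κ : E n → E m)
    (R : ℝ) (O : Set (E n)) (hR : 0 < R) (hO : IsOpen O) (hκ : ContDiffOn ℝ ∞ κ O)
    (hκS : ∀ w ∈ O, κ w ∈ S) (hκA : ∀ y ∈ S, ‖y - y₀‖ < R → A y ∈ O ∧ κ (A y) = y)
    (U₁ : Set (E m)) (P₁ : E m → E m) (hU₁ : IsOpen U₁) (hP₁ : ContDiffOn ℝ ∞ P₁ U₁)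
    (hP₁S : ∀ y ∈ U₁, P₁ y ∈ S) (hP₁i : ∀ y ∈ U₁, y ∈ S → P₁ y = y) :
    ∃ (U : Set (E m)) (P : E m → E m), IsOpen U ∧ ContDiffOn ℝ ∞ P U ∧
      (∀ y ∈ U, P y ∈ S) ∧ (∀ y ∈ U, y ∈ S → P y = y) ∧ (∀ y ∈ U₁, y ∈ S → y ∈ U) ∧
      ∀ y ∈ S, ‖y - y₀‖ < R / 3 → y ∈ U := by
  classical
  let f : ContDiffBump y₀ := ⟨R / 3, 2 * R / 3, by linarith, by linarith⟩
  have hf1 : ∀ y, ‖y - y₀‖ ≤ R / 3 → f y = 1 := fun y hy =>
    f.one_of_mem_closedBall (by rwa [mem_closedBall, dist_eq_norm])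
  have hf0 : ∀ y, 2 * R / 3 ≤ ‖y - y₀‖ → f y = 0 := fun y hy =>
    f.zero_of_le_dist (by rwa [dist_eq_norm])
  have hfs : ContDiff ℝ ∞ f := f.contDiff
  set W : E m → E n := fun y => (1 - f y) • A (P₁ y) + f y • A y with hW
  set P : E m → E m := fun y => if ‖y - y₀‖ ≤ 2 * R / 3 then κ (W y) else P₁ y with hP
  have hWs : ContDiffOn ℝ ∞ W U₁ := by
    apply ContDiffOn.add
    · exact (contDiff_const.sub hfs).contDiffOn.smul (A.contDiff.comp_contDiffOn hP₁)
    · exact (hfs.smul A.contDiff).contDiffOn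
  set Ua : Set (E m) := ball y₀ (R / 3) ∩ A ⁻¹' O with hUa
  set Ub : Set (E m) := U₁ \ closedBall y₀ (2 * R / 3) with hUb
  set Uc : Set (E m) := (U₁ ∩ W ⁻¹' O) ∩ (U₁ ∩ P₁ ⁻¹' ball y₀ R) with hUc
  have hUao : IsOpen Ua := isOpen_ball.inter (hO.preimage A.continuous)
  have hUbo : IsOpen Ub := hU₁.sdiff isClosed_closedBall
  have hUco : IsOpen Uc := (hWs.continuousOn.isOpen_inter_preimage hU₁ hO).inter
    (hP₁.continuousOn.isOpen_inter_preimage hU₁ isOpen_ball)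
  have ha : ∀ y ∈ Ua, P y = κ (A y) := by
    intro y hy
    have h1 : ‖y - y₀‖ < R / 3 := by
      have := hy.1
      rwa [mem_ball, dist_eq_norm] at this
    simp only [hP, hW]
    rw [if_pos (by linarith), hf1 y h1.le]
    simp
  have hb : ∀ y ∈ Ub, P y = P₁ y := by
    intro y hy
    have h1 : ¬ ‖y - y₀‖ ≤ 2 * R / 3 := by
      have := hy.2
      rwa [mem_closedBall, dist_eq_norm] at this
    simp only [hP]
    rw [if_neg h1]
  have hc : ∀ y ∈ Uc, P y = κ (W y) := by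
    intro y hy
    by_cases h1 : ‖y - y₀‖ ≤ 2 * R / 3
    · simp only [hP]
      rw [if_pos h1]
    · simp only [hP]
      rw [if_neg h1]
      have h2 : f y = 0 := hf0 y (by linarith)
      have h3 : ‖P₁ y - y₀‖ < R := by
        have := hy.2.2
        rwa [mem_preimage, mem_ball, dist_eq_norm] at this
      simp only [hW, h2]
      rw [sub_zero, one_smul, zero_smul, add_zero, (hκA _ (hP₁S y hy.1.1) h3).2]
  refine ⟨Ua ∪ Ub ∪ Uc, P, (hUao.union hUbo).union hUco, ?_, ?_, ?_, ?_, ?_⟩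
  · have h1 : ContDiffOn ℝ ∞ P Ua := by
      have h2 : ContDiffOn ℝ ∞ (fun y => κ (A y)) Ua :=
        hκ.comp A.contDiff.contDiffOn fun y hy => hy.2
      exact h2.congr ha
    have h2 : ContDiffOn ℝ ∞ P Ub := (hP₁.mono diff_subset).congr hb
    have h3 : ContDiffOn ℝ ∞ P Uc := by
      have h4 : ContDiffOn ℝ ∞ (fun y => κ (W y)) Uc :=
        hκ.comp (hWs.mono fun y hy => hy.1.1) fun y hy => hy.1.2
      exact h4.congr hc
    exact ((h1.union_of_isOpen h2 hUao hUbo).union_of_isOpen h3 (hUao.union hUbo) hUco)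
  · rintro y ((hy | hy) | hy)
    · rw [ha y hy]
      exact hκS _ hy.2
    · rw [hb y hy]
      exact hP₁S y hy.1
    · rw [hc y hy]
      exact hκS _ hy.1.2
  · rintro y ((hy | hy) | hy) hyS
    · rw [ha y hy]
      have h1 : ‖y - y₀‖ < R / 3 := by
        have := hy.1
        rwa [mem_ball, dist_eq_norm] at this
      exact (hκA y hyS (by linarith)).2
    · rw [hb y hy]
      exact hP₁i y hy.1 hyS
    · rw [hc y hy]
      have h1 : P₁ y = y := hP₁i y hy.1.1 hyS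
      have h2 : W y = A y := by
        simp only [hW, h1]
        rw [← add_smul, sub_add_cancel, one_smul]
      have h3 : ‖y - y₀‖ < R := by
        have := hy.2.2
        rwa [mem_preimage, h1, mem_ball, dist_eq_norm] at this
      rw [h2]
      exact (hκA y hyS h3).2
  · intro y hy hyS
    by_cases h1 : ‖y - y₀‖ ≤ 2 * R / 3
    · right
      have h2 : P₁ y = y := hP₁i y hy hyS
      have h3 : W y = A y := by
        simp only [hW, h2]
        rw [← add_smul, sub_add_cancel, one_smul]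
      have h4 : ‖y - y₀‖ < R := by linarith
      refine ⟨⟨hy, ?_⟩, hy, ?_⟩
      · rw [mem_preimage, h3]
        exact (hκA y hyS h4).1
      · rw [mem_preimage, h2, mem_ball, dist_eq_norm]
        exact h4
    · left
      right
      refine ⟨hy, ?_⟩
      rwa [mem_closedBall, dist_eq_norm]
  · intro y hyS hy
    left
    left
    refine ⟨?_, ?_⟩
    · rwa [mem_ball, dist_eq_norm]
    · exact (hκA y hyS (by linarith)).1

/-- a compact set which is locally a smooth graph is a smooth retract of a neighbourhood -/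
theorem retr {n m : ℕ} (S : Set (E m)) (hS : IsCompact S) (hloc : ∀ y ∈ S, Loc n S y) :
    ∃ (U : Set (E m)) (P : E m → E m), IsOpen U ∧ S ⊆ U ∧ ContDiffOn ℝ ∞ P U ∧
      (∀ y ∈ U, P y ∈ S) ∧ ∀ y ∈ S, P y = y := by
  classical
  choose! A κ R O hR hO hκ hκS hκA using hloc
  obtain ⟨t, htS, ht⟩ := hS.elim_finite_subcover_image (b := S) (c := fun y => ball y (R y / 3))
    (fun y _ => isOpen_ball) (fun y hy => mem_iUnion₂.2 ⟨y, hy, mem_ball_self (by
      have := hR y hy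
      linarith)⟩)
  obtain ⟨htf, hcov⟩ := ht
  have key : ∀ s : Finset (E m), (∀ y ∈ s, y ∈ S) →
      ∃ (U : Set (E m)) (P : E m → E m), IsOpen U ∧ ContDiffOn ℝ ∞ P U ∧
        (∀ y ∈ U, P y ∈ S) ∧ (∀ y ∈ U, y ∈ S → P y = y) ∧
        ∀ y₀ ∈ s, ∀ y ∈ S, ‖y - y₀‖ < R y₀ / 3 → y ∈ U := by
    intro s
    induction s using Finset.induction_on with
    | empty =>
      intro _
      exact ⟨∅, id, isOpen_empty, contDiffOn_empty, by simp, by simp, by simp⟩
    | insert a s _ ih =>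
      intro hs
      obtain ⟨U₁, P₁, hU₁, hP₁, h1, h2, h3⟩ := ih fun y hy => hs y (Finset.mem_insert_of_mem hy)
      have haS := hs a (Finset.mem_insert_self _ _)
      obtain ⟨U, P, hU, hP, g1, g2, g3, g4⟩ := retr_step S a (A a) (κ a) (R a) (O a) (hR a haS)
        (hO a haS) (hκ a haS) (hκS a haS) (hκA a haS) U₁ P₁ hU₁ hP₁ h1 h2
      refine ⟨U, P, hU, hP, g1, g2, fun y₀ hy₀ y hy hyy => ?_⟩
      rcases Finset.mem_insert.1 hy₀ with rfl | hy₀
      · exact g4 y hy hyy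
      · exact g3 y (h3 y₀ hy₀ y hy hyy) hy
  obtain ⟨U, P, hU, hP, g1, g2, g3⟩ := key htf.toFinset fun y hy => htS (by simpa using hy)
  have hSU : S ⊆ U := by
    intro y hy
    obtain ⟨y₀, hy₀, hyy⟩ := mem_iUnion₂.1 (hcov hy)
    exact g3 y₀ (by simpa using hy₀) y hy (by rwa [mem_ball, dist_eq_norm] at hyy)
  exact ⟨U, P, hU, hSU, hP, g1, fun y hy => g2 y (hSU hy) hy⟩

end Pool.Agent.X169.NM
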